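import Pool.Agent.Q253.P3.Base

/-!
# Numbers with at most three prime factors in arithmetic progressions
-/

set_option autoImplicit false

namespace Pool.Agent.Q253.P3

open Finset Filter
open Pool.Agent.W23.DC (pr tt Mer)
open Pool.Agent.Y882 (PZ tt_lt prod_inj)
open Pool.Agent.Y882.KW
open Pool.Agent.Y843.HS (Pr Pr_mem Pr_prime)
open Pool.Agent.Y843.HG (V1 V1_bounds)

/-- one residue class -/
theorem card_class (A H d v : ℕ) (hd : 0 < d) :
    |((((Ioc A (A + H)).filter (fun j => j ≡ v [MOD d])).card : ℝ)) - (H : ℝ) / d| ≤ 1 := by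
  have h1 := Nat.Ioc_filter_modEq_card A (A + H) hd v
  have hdq : (0 : ℚ) < d := by exact_mod_cast hd
  set x : ℚ := (((A + H : ℕ) : ℚ) - v) / d with hx
  set y : ℚ := ((A : ℚ) - v) / d with hy
  have hxy : x - y = (H : ℚ) / d := by
    rw [hx, hy, ← sub_div]
    congr 1
    push_cast
    ring
  have hx1 := Int.floor_le x
  have hx2 := Int.lt_floor_add_one x
  have hy1 := Int.floor_le y
  have hy2 := Int.lt_floor_add_one y
  have hH0 : (0 : ℚ) ≤ (H : ℚ) / d := by positivity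
  have hmono : ⌊y⌋ ≤ ⌊x⌋ := Int.floor_le_floor (by linarith)
  rw [max_eq_left (by linarith)] at h1
  have h2 : ((((Ioc A (A + H)).filter (fun j => j ≡ v [MOD d])).card : ℕ) : ℚ) = (⌊x⌋ : ℚ) - ⌊y⌋ := by
    exact_mod_cast h1
  have h3 : |((((Ioc A (A + H)).filter (fun j => j ≡ v [MOD d])).card : ℕ) : ℚ) - (H : ℚ) / d| ≤ 1 := by
    rw [h2, abs_le]
    constructor <;> linarith
  have h4 : ((|((((Ioc A (A + H)).filter (fun j => j ≡ v [MOD d])).card : ℕ) : ℚ) - (H : ℚ) / d| : ℚ) : ℝ) ≤ ((1 : ℚ) : ℝ) := by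
    exact_mod_cast h3
  push_cast at h4
  exact h4

/-- the multiples of `d` in a progression -/
theorem card_lin (m a A H d : ℕ) (hd : 0 < d) (hmd : Nat.Coprime m d) :
    |((((Ioc A (A + H)).filter (fun j => d ∣ m * j + a)).card : ℝ)) - (H : ℝ) / d| ≤ 1 := by
  obtain ⟨v, hv⟩ : ∃ v : ℕ, d ∣ m * v + a := by
    have : NeZero d := ⟨hd.ne'⟩
    have hu : IsUnit ((m : ZMod d)) := (ZMod.isUnit_iff_coprime m d).2 hmd
    obtain ⟨u, hu⟩ := hu
    refine ⟨((-(a : ZMod d)) * (↑u⁻¹ : ZMod d)).val, ?_⟩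
    rw [← ZMod.natCast_eq_zero_iff]
    push_cast
    rw [ZMod.natCast_zmod_val, ← hu]
    have : (u : ZMod d) * (-(a : ZMod d) * (↑u⁻¹ : ZMod d)) = -(a : ZMod d) * ((u : ZMod d) * (↑u⁻¹ : ZMod d)) := by ring
    rw [this, Units.mul_inv]
    ring
  have h1 : (Ioc A (A + H)).filter (fun j => d ∣ m * j + a) = (Ioc A (A + H)).filter (fun j => j ≡ v [MOD d]) := by
    apply filter_congr
    intro j _
    constructor
    · intro h
      have h2 : m * j + a ≡ m * v + a [MOD d] :=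
        ((Nat.modEq_zero_iff_dvd.2 h).trans (Nat.modEq_zero_iff_dvd.2 hv).symm)
      have h3 : m * j ≡ m * v [MOD d] := Nat.ModEq.add_right_cancel' a h2
      exact Nat.ModEq.cancel_left_of_coprime (by rwa [Nat.coprime_comm] at hmd) h3
    · intro h
      have h2 : m * j + a ≡ m * v + a [MOD d] := (h.mul_left m).add_right a
      exact Nat.modEq_zero_iff_dvd.1 (h2.trans (Nat.modEq_zero_iff_dvd.2 hv))
  rw [h1]
  exact card_class A H d v hd

/-- the local densities -/
def rl (m p : ℕ) : ℕ := if p ∣ m then 0 else 1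

/-- Mertens for `rl` -/
theorem merl (ε₁ υ η : ℝ) (hε : 0 < ε₁) (hυ : υ ≤ 1) (hη : 0 < η) : ∃ Y0 : ℕ, ∀ Y : ℕ, Y0 ≤ Y →
    ∀ m : ℕ, 1 ≤ m → m ≤ Y → Mer (pr Y ε₁ υ) (tt Y) (fun p => (rl m p : ℝ) / p) ε₁ υ η := by
  classical
  obtain ⟨Y1, H⟩ := mer1 ε₁ υ (η / 2) hε hυ (by positivity)
  have h1 : ∀ᶠ Y : ℕ in atTop, 4 / η * Real.log Y ≤ (Y : ℝ) ^ ε₁ := by
    have h1 := (isLittleO_log_rpow_atTop hε).def (show (0 : ℝ) < η / 4 by positivity)
    have h2 := (tendsto_natCast_atTop_atTop (R := ℝ)).eventually h1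
    filter_upwards [h2, eventually_ge_atTop 1] with X hX h1
    have hX1 : (1 : ℝ) ≤ X := by exact_mod_cast h1
    rw [Real.norm_of_nonneg (Real.log_nonneg hX1), Real.norm_of_nonneg (by positivity)] at hX
    calc 4 / η * Real.log X ≤ 4 / η * (η / 4 * (X : ℝ) ^ ε₁) := mul_le_mul_of_nonneg_left hX (by positivity)
      _ = _ := by field_simp
  obtain ⟨Y2, H2⟩ := eventually_atTop.1 h1
  refine ⟨max (max Y1 Y2) 2, ?_⟩
  intro Y hY m hm hmY a b ha hab hb
  have y1 : Y1 ≤ Y := ((le_max_left _ _).trans (le_max_left _ _)).trans hY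
  have y2 := H2 Y (((le_max_right _ _).trans (le_max_left _ _)).trans hY)
  have y3 : 2 ≤ Y := (le_max_right _ _).trans hY
  have hYr : (2 : ℝ) ≤ Y := by exact_mod_cast y3
  have hYε : (0 : ℝ) < (Y : ℝ) ^ ε₁ := by positivity
  have g := H Y y1 a b ha hab hb
  set P := (pr Y ε₁ υ).filter (fun p => a ≤ tt Y p ∧ tt Y p < b) with hP
  have hp : ∀ p ∈ P, p.Prime ∧ (Y : ℝ) ^ ε₁ ≤ p := by
    intro p hp
    rw [hP, mem_filter] at hp
    have hp1 := hp.1
    unfold pr at hp1
    rw [mem_filter] at hp1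
    refine ⟨hp1.2.1, ?_⟩
    by_contra hlt
    push Not at hlt
    have := (tt_lt Y p ε₁ y3 hp1.2.1.pos).2 hlt
    linarith [hp1.2.2.1]
  clear_value P
  have hd : |∑ p ∈ P, ((rl m p : ℝ) / p) - ∑ p ∈ P, ((1 : ℕ) : ℝ) / p| ≤ η / 2 := by
    rw [← sum_sub_distrib]
    have h3 : ∑ p ∈ P, ((rl m p : ℝ) / p - ((1 : ℕ) : ℝ) / p) = - ∑ p ∈ P.filter (fun p => p ∣ m), (1 : ℝ) / p := by
      rw [sum_filter, ← sum_neg_distrib]
      apply sum_congr rfl
      intro p _
      unfold rl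
      split_ifs <;> simp
    rw [h3, abs_neg, abs_of_nonneg (sum_nonneg fun p _ => by positivity)]
    have h4 : ∑ p ∈ P.filter (fun p => p ∣ m), (1 : ℝ) / p ≤ ∑ p ∈ P.filter (fun p => p ∣ m), ((Y : ℝ) ^ ε₁)⁻¹ := by
      apply sum_le_sum
      intro p hpp
      rw [one_div]
      exact inv_anti₀ hYε (hp p (mem_filter.1 hpp).1).2
    refine h4.trans ?_
    rw [sum_const, nsmul_eq_mul]
    have h5 : P.filter (fun p => p ∣ m) ⊆ m.primeFactors := by
      intro p hpp
      rw [mem_filter] at hpp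
      exact Nat.mem_primeFactors.2 ⟨(hp p hpp.1).1, hpp.2, by omega⟩
    have h6 : 2 ^ m.primeFactors.card ≤ m := by
      calc 2 ^ m.primeFactors.card = ∏ p ∈ m.primeFactors, 2 := by rw [prod_const]
        _ ≤ ∏ p ∈ m.primeFactors, p := Finset.prod_le_prod' fun p hp => (Nat.prime_of_mem_primeFactors hp).two_le
        _ ≤ m := Nat.le_of_dvd (by omega) (Nat.prod_primeFactors_dvd m)
    have h7 : ((P.filter (fun p => p ∣ m)).card : ℝ) * Real.log 2 ≤ Real.log Y := by
      have h8 : (2 : ℝ) ^ (P.filter (fun p => p ∣ m)).card ≤ Y := by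
        have h9 : 2 ^ (P.filter (fun p => p ∣ m)).card ≤ Y :=
          (Nat.pow_le_pow_right (by norm_num) (card_le_card h5)).trans (h6.trans hmY)
        exact_mod_cast h9
      have h9 := Real.log_le_log (by positivity) h8
      rwa [Real.log_pow] at h9
    have h8 := Real.log_two_gt_d9
    have h9 : ((P.filter (fun p => p ∣ m)).card : ℝ) ≤ 2 * Real.log Y := by
      have h10 : (0 : ℝ) ≤ (P.filter (fun p => p ∣ m)).card := Nat.cast_nonneg _
      nlinarith
    rw [← div_eq_mul_inv, div_le_iff₀ hYε]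
    have h10 : η / 4 * (4 / η * Real.log Y) ≤ η / 4 * (Y : ℝ) ^ ε₁ := mul_le_mul_of_nonneg_left y2 (by positivity)
    have h11 : η / 4 * (4 / η * Real.log Y) = Real.log Y := by field_simp
    linarith
  calc |∑ p ∈ P, (rl m p : ℝ) / p - Real.log (b / a)| =
        |(∑ p ∈ P, (rl m p : ℝ) / p - ∑ p ∈ P, ((1 : ℕ) : ℝ) / p) +
          (∑ p ∈ P, ((1 : ℕ) : ℝ) / p - Real.log (b / a))| := by ring_nf
    _ ≤ _ := abs_add_le _ _
    _ ≤ η / 2 + η / 2 := add_le_add hd g
    _ = η := by ring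

/-- the `j` in `(A, A + H]` such that `m j + a` has at most three prime factors, all at least `X ^ ζ` -/
noncomputable def G3L (X : ℕ) (ζ : ℝ) (m a A H : ℕ) : Finset ℕ :=
  open Classical in (Ioc A (A + H)).filter (fun j => (m * j + a).primeFactorsList.length ≤ 3 ∧
    ∀ q : ℕ, q.Prime → q ∣ m * j + a → (X : ℝ) ^ ζ ≤ q)

/-- **Numbers with at most three prime factors in all progressions with `X ^ (2/5)` terms.** -/
theorem p3lin : ∃ δ : ℝ, 0 < δ ∧ ∃ X₀ : ℕ, ∀ X : ℕ, X₀ ≤ X → ∀ m a A H : ℕ, 1 ≤ m → Nat.Coprime a m → m * (A + H) + a ≤ X →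
    (X : ℝ) ^ (2 / 5 : ℝ) ≤ H → δ * (H / Real.log X) ≤ ((G3L X (39 / 400) m a A H).card : ℝ) := by
  classical
  obtain ⟨δ, ε₁, η, hδ, hε₁, hε₁ζ, hε₁β, hη, Y0, HC⟩ := core4 1 (39 / 100) (39 / 400) (9 / 25) (9 / 11)
    ((9 / 11) / (9 / 25)) (197 / 500) 1 (1 / 1000) (by norm_num) (by norm_num) (by norm_num) (by norm_num)
    (by norm_num) (by norm_num) (by norm_num) (by norm_num) (by norm_num) cond (by norm_num) (by norm_num) (by norm_num)
  obtain ⟨Y1, HM⟩ := merl ε₁ (9 / 25) η hε₁ (by norm_num) hη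
  obtain ⟨c, C, hc, hC, hV⟩ := V1_bounds
  -- eventual inequalities
  have hlog : ∀ K s : ℝ, 0 < K → 0 < s → ∀ᶠ X : ℕ in atTop, K * Real.log X ≤ (X : ℝ) ^ s := by
    intro K s hK hs
    have h1 := (isLittleO_log_rpow_atTop hs).def (show (0 : ℝ) < 1 / K by positivity)
    have h2 := (tendsto_natCast_atTop_atTop (R := ℝ)).eventually h1
    filter_upwards [h2, eventually_ge_atTop 1] with X hX h1
    have hX1 : (1 : ℝ) ≤ X := by exact_mod_cast h1
    rw [Real.norm_of_nonneg (Real.log_nonneg hX1), Real.norm_of_nonneg (by positivity)] at hX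
    calc K * Real.log X ≤ K * (1 / K * (X : ℝ) ^ s) := mul_le_mul_of_nonneg_left hX hK.le
      _ = _ := by field_simp
  obtain ⟨X1, e1⟩ := eventually_atTop.1 ((hlog 5 (1 / 500) (by norm_num) (by norm_num)).and
    ((hlog (12 / (δ * c)) (1 / 100) (by positivity) (by norm_num)).and (eventually_ge_atTop 3)))
  refine ⟨δ * c / 2, by positivity, max (max Y0 Y1) X1, ?_⟩
  intro X hX m a A H hm ham hAH hH
  have hHX : m * H ≤ X := by nlinarith
  have hmX : m ≤ X := by
    have h1 : 0 < H := by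
      by_contra h0
      have h2 : H = 0 := by omega
      rw [h2, Nat.cast_zero] at hH
      have h3 : (0 : ℝ) < (X : ℝ) ^ (2 / 5 : ℝ) := by
        have : (0 : ℝ) < X := by
          have : 3 ≤ X := (e1 X ((le_max_right _ _).trans hX)).2.2
          exact_mod_cast (by omega : 0 < X)
        positivity
      linarith
    nlinarith
  have hHX' : H ≤ X := by nlinarith
  have x0 : Y0 ≤ X := ((le_max_left _ _).trans (le_max_left _ _)).trans hX
  have x1 : Y1 ≤ X := ((le_max_right _ _).trans (le_max_left _ _)).trans hX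
  obtain ⟨x2, x3, x4⟩ := e1 X ((le_max_right _ _).trans hX)
  have hXr : (3 : ℝ) ≤ X := by exact_mod_cast x4
  have hX1 : (1 : ℝ) ≤ X := by linarith
  have hX0 : (0 : ℝ) < X := by linarith
  have hlX : 0 < Real.log X := Real.log_pos (by linarith)
  obtain ⟨cw, hw1, hw2, hw3⟩ := HC X x0
  have hPZ : ∀ w : ℝ, ∀ p ∈ PZ X w, p.Prime := by
    intro w p hp
    unfold PZ at hp
    rw [mem_filter] at hp
    exact hp.2.1
  have hJ : (Ioc A (A + H)).card = H := by rw [Nat.card_Ioc]; omega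
  have hHr : (0 : ℝ) ≤ H := Nat.cast_nonneg H
  -- the remainder
  have hrem : |∑ T ∈ (PZ X (9 / 25)).powerset, cw T * ((((Ioc A (A + H)).filter (fun j => ∏ p ∈ T, p ∣ m * j + a)).card : ℝ) -
      (Ioc A (A + H)).card * ∏ p ∈ T, ((rl m p : ℝ) / p))| ≤ (Ioc A (A + H)).card * (X : ℝ) ^ (-(1 / 1000 : ℝ)) := by
    rw [hJ]
    have hterm : ∀ T ∈ (PZ X (9 / 25)).powerset, |cw T * ((((Ioc A (A + H)).filter (fun j => ∏ p ∈ T, p ∣ m * j + a)).card : ℝ) -
        H * ∏ p ∈ T, ((rl m p : ℝ) / p))| ≤ if cw T ≠ 0 then 5 * Real.log X else 0 := by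
      intro T hT
      rw [mem_powerset] at hT
      split_ifs with h0
      · rw [abs_mul]
        by_cases hex : ∃ p ∈ T, p ∣ m
        · obtain ⟨p, hp, hpm⟩ := hex
          have h1 : ∏ p ∈ T, ((rl m p : ℝ) / p) = 0 := by
            apply prod_eq_zero hp
            unfold rl
            rw [if_pos hpm]
            simp
          have h2 : (Ioc A (A + H)).filter (fun j => ∏ p ∈ T, p ∣ m * j + a) = ∅ := by
            apply filter_false_of_mem
            intro j _ hj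
            have h3 : p ∣ m * j + a := (dvd_prod_of_mem _ hp).trans hj
            have h4 : p ∣ a := (Nat.dvd_add_right (hpm.mul_right j)).1 h3
            exact (hPZ _ p (hT hp)).one_lt.ne' (Nat.dvd_one.1 (ham ▸ Nat.dvd_gcd h4 hpm))
          rw [h1, h2, card_empty, Nat.cast_zero, mul_zero, sub_zero, abs_zero, mul_zero]
          positivity
        · push Not at hex
          have h1 : ∏ p ∈ T, ((rl m p : ℝ) / p) = 1 / ((∏ p ∈ T, p : ℕ) : ℝ) := by
            have h3 : ∀ p ∈ T, ((rl m p : ℝ) / p) = 1 / (p : ℝ) := by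
              intro p hp
              unfold rl
              rw [if_neg (hex p hp)]
              simp
            rw [prod_congr rfl h3, prod_div_distrib, prod_const]
            push_cast
            rw [one_pow]
          have hd : 0 < ∏ p ∈ T, p := prod_pos fun p hp => (hPZ _ p (hT hp)).pos
          have hcop : Nat.Coprime m (∏ p ∈ T, p) := by
            apply Nat.Coprime.prod_right
            intro p hp
            rw [Nat.coprime_comm]
            exact (Nat.Prime.coprime_iff_not_dvd (hPZ _ p (hT hp))).2 (hex p hp)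
          rw [h1, mul_one_div]
          have h2 := card_lin m a A H (∏ p ∈ T, p) hd hcop
          calc |cw T| * _ ≤ (5 * Real.log X) * 1 := mul_le_mul (hw1 T) h2 (abs_nonneg _) (by positivity)
            _ = _ := mul_one _
      · push Not at h0
        rw [h0, zero_mul, abs_zero]
    refine (abs_sum_le_sum_abs _ _).trans ((sum_le_sum hterm).trans ?_)
    rw [← sum_filter, sum_const, nsmul_eq_mul]
    have hcard : ((((PZ X (9 / 25)).powerset.filter (fun T => cw T ≠ 0)).card : ℕ) : ℝ) ≤ (X : ℝ) ^ (197 / 500 : ℝ) := by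
      have h1 : ((PZ X (9 / 25)).powerset.filter (fun T => cw T ≠ 0)).card ≤
          (Icc 1 ⌊(X : ℝ) ^ (197 / 500 : ℝ)⌋₊).card := by
        apply card_le_card_of_injOn (fun T => ∏ p ∈ T, p)
        · intro T hT
          rw [coe_filter, Set.mem_ofPred_eq, mem_powerset] at hT
          rw [coe_Icc, Set.mem_Icc]
          exact ⟨Nat.pos_of_ne_zero (prod_ne_zero_iff.2 fun p hp => (hPZ _ p (hT.1 hp)).ne_zero),
            Nat.le_floor (hw2 T hT.1 hT.2)⟩
        · intro T hT T' hT' he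
          rw [coe_filter, Set.mem_ofPred_eq, mem_powerset] at hT hT'
          exact prod_inj _ (hPZ _) hT.1 hT'.1 he
      rw [Nat.card_Icc, Nat.add_sub_cancel] at h1
      calc ((((PZ X (9 / 25)).powerset.filter (fun T => cw T ≠ 0)).card : ℕ) : ℝ) ≤
            (⌊(X : ℝ) ^ (197 / 500 : ℝ)⌋₊ : ℝ) := by exact_mod_cast h1
        _ ≤ _ := Nat.floor_le (by positivity)
    calc ((((PZ X (9 / 25)).powerset.filter (fun T => cw T ≠ 0)).card : ℕ) : ℝ) * (5 * Real.log X) ≤
          (X : ℝ) ^ (197 / 500 : ℝ) * (X : ℝ) ^ (1 / 500 : ℝ) := by gcongr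
      _ = (X : ℝ) ^ (198 / 500 : ℝ) := by
          rw [← Real.rpow_add hX0]
          norm_num
      _ ≤ (X : ℝ) ^ (2 / 5 : ℝ) * (X : ℝ) ^ (-(1 / 1000 : ℝ)) := by
          rw [← Real.rpow_add hX0]
          apply Real.rpow_le_rpow_of_exponent_le hX1
          norm_num
      _ ≤ _ := by gcongr
  have hrl : ∀ p : ℕ, rl m p ≤ 1 := fun p => by
    unfold rl
    split_ifs <;> simp
  have hmain0 := hw3 (Ioc A (A + H)) (fun j => m * j + a) (rl m) X (by rw [Real.rpow_one]) (fun p _ => hrl p)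
    (fun p hp => (hrl p).trans hp.one_le) (HM X x1 m hm hmX) hrem
  rw [hJ] at hmain0
  have hVX : V1 X ≤ ∏ p ∈ (Icc 1 X).filter Nat.Prime, (1 - (rl m p : ℝ) / p) := by
    have h1 : V1 X = ∏ p ∈ (Icc 1 X).filter Nat.Prime, (1 - 1 / (p : ℝ)) := by
      unfold V1
      apply prod_congr
      · ext q
        rw [Pr_mem, mem_filter, mem_Icc]
        constructor
        · rintro ⟨⟨a, b⟩, c⟩
          exact ⟨⟨c.pos, b⟩, c⟩
        · rintro ⟨⟨a, b⟩, c⟩
          exact ⟨⟨c.pos, b⟩, c⟩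
      · intro q _
        rfl
    rw [h1]
    apply Finset.prod_le_prod
    · intro p hp
      have h2 : (1 : ℝ) ≤ p := by exact_mod_cast (mem_filter.1 hp).2.one_le
      rw [sub_nonneg, div_le_one (by linarith)]
      exact h2
    · intro p hp
      have h2 : (0 : ℝ) < p := by exact_mod_cast (mem_filter.1 hp).2.pos
      have h3 : (rl m p : ℝ) ≤ 1 := by exact_mod_cast hrl p
      have h4 : (rl m p : ℝ) / p ≤ 1 / p := div_le_div_of_nonneg_right h3 h2.le
      linarith
  have hmain : δ * H * V1 X ≤ (((Ioc A (A + H)).filter (fun j => 0 < WW X (39 / 400) (9 / 25) (9 / 11)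
      ((9 / 11) / (9 / 25)) (m * j + a))).card : ℝ) := by
    refine le_trans (mul_le_mul_of_nonneg_left hVX (by positivity)) hmain0
  have hV2 := (hV X (by omega)).1
  -- the squares
  set S2 : Finset ℕ := (pr X (39 / 400) (9 / 25)).biUnion (fun q => if q ∣ m then ∅ else (Ioc A (A + H)).filter (fun n => q ^ 2 ∣ m * n + a)) with hS2
  have hprm : ∀ q ∈ pr X (39 / 400) (9 / 25), q.Prime ∧ (X : ℝ) ^ (39 / 400 : ℝ) ≤ q ∧ (q : ℝ) < (X : ℝ) ^ (9 / 25 : ℝ) := by
    intro q hq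
    unfold pr at hq
    rw [mem_filter] at hq
    refine ⟨hq.2.1, ?_, (tt_lt X q _ (by omega) hq.2.1.pos).1 hq.2.2.2⟩
    by_contra hlt
    push Not at hlt
    have := (tt_lt X q (39 / 400) (by omega) hq.2.1.pos).2 hlt
    linarith [hq.2.2.1]
  have hk1 : (2 : ℝ) ≤ (X : ℝ) ^ (39 / 400 : ℝ) := by
    have h1 := Real.log_le_sub_one_of_pos (show (0 : ℝ) < X by linarith)
    have h2 : 5 * 1 ≤ 5 * Real.log X := by
      apply mul_le_mul_of_nonneg_left _ (by norm_num)
      rw [Real.le_log_iff_exp_le hX0]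
      linarith [Real.exp_one_lt_d9]
    calc (2 : ℝ) ≤ 5 * Real.log X := by linarith
      _ ≤ (X : ℝ) ^ (1 / 500 : ℝ) := x2
      _ ≤ _ := Real.rpow_le_rpow_of_exponent_le hX1 (by norm_num)
  set k : ℕ := ⌈(X : ℝ) ^ (39 / 400 : ℝ)⌉₊ - 1 with hk
  have hceil := Nat.le_ceil ((X : ℝ) ^ (39 / 400 : ℝ))
  have hc1 : 2 ≤ ⌈(X : ℝ) ^ (39 / 400 : ℝ)⌉₊ := by
    have : (2 : ℝ) ≤ ⌈(X : ℝ) ^ (39 / 400 : ℝ)⌉₊ := hk1.trans hceil
    exact_mod_cast this
  have hkr : (X : ℝ) ^ (39 / 400 : ℝ) / 2 ≤ k := by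
    have h1 : ((k : ℕ) : ℝ) = ⌈(X : ℝ) ^ (39 / 400 : ℝ)⌉₊ - 1 := by
      rw [hk, Nat.cast_sub (by omega)]
      push_cast
      ring
    rw [h1]
    linarith
  have hS2c : (S2.card : ℝ) ≤ 5 * H / (X : ℝ) ^ (1 / 25 : ℝ) := by
    have h1 : (S2.card : ℝ) ≤ ∑ q ∈ pr X (39 / 400) (9 / 25), ((H : ℝ) * ((q : ℝ) ^ 2)⁻¹ + 1) := by
      calc (S2.card : ℝ) ≤ ∑ q ∈ pr X (39 / 400) (9 / 25), (((if q ∣ m then ∅ else
              (Ioc A (A + H)).filter (fun n => q ^ 2 ∣ m * n + a)).card : ℕ) : ℝ) := by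
            exact_mod_cast card_biUnion_le
        _ ≤ _ := by
            apply sum_le_sum
            intro q hq
            split_ifs with hqm
            · rw [card_empty, Nat.cast_zero]
              positivity
            · have hcop : Nat.Coprime m (q ^ 2) := by
                apply Nat.Coprime.pow_right
                rw [Nat.coprime_comm]
                exact (Nat.Prime.coprime_iff_not_dvd (hprm q hq).1).2 hqm
              have h2 := card_lin m a A H (q ^ 2) (pow_pos (hprm q hq).1.pos 2) hcop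
              have h3 := (abs_le.1 h2).2
              push_cast at h3
              rw [div_eq_mul_inv] at h3
              linarith
    refine h1.trans ?_
    rw [sum_add_distrib, sum_const, nsmul_eq_mul, mul_one, ← mul_sum]
    have hsub : pr X (39 / 400) (9 / 25) ⊆ Ioc 0 ⌊(X : ℝ) ^ (9 / 25 : ℝ)⌋₊ := by
      intro q hq
      obtain ⟨q1, q2, q3⟩ := hprm q hq
      rw [mem_Ioc]
      exact ⟨q1.pos, Nat.le_floor q3.le⟩
    have hsub2 : pr X (39 / 400) (9 / 25) ⊆ Ioc k X := by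
      intro q hq
      obtain ⟨q1, q2, q3⟩ := hprm q hq
      rw [mem_Ioc]
      constructor
      · have := Nat.ceil_le.2 q2
        omega
      · have : (q : ℝ) ≤ X := by
          refine q3.le.trans ?_
          calc (X : ℝ) ^ (9 / 25 : ℝ) ≤ (X : ℝ) ^ (1 : ℝ) := Real.rpow_le_rpow_of_exponent_le hX1 (by norm_num)
            _ = X := Real.rpow_one _
        exact_mod_cast this
    have hc1 : ((pr X (39 / 400) (9 / 25)).card : ℝ) ≤ (X : ℝ) ^ (9 / 25 : ℝ) := by
      have := card_le_card hsub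
      rw [Nat.card_Ioc, Nat.sub_zero] at this
      calc ((pr X (39 / 400) (9 / 25)).card : ℝ) ≤ (⌊(X : ℝ) ^ (9 / 25 : ℝ)⌋₊ : ℝ) := by exact_mod_cast this
        _ ≤ _ := Nat.floor_le (by positivity)
    have hc2 : (X : ℝ) ^ (9 / 25 : ℝ) ≤ H / (X : ℝ) ^ (1 / 25 : ℝ) := by
      rw [le_div_iff₀ (by positivity), ← Real.rpow_add hX0]
      refine le_trans ?_ hH
      apply Real.rpow_le_rpow_of_exponent_le hX1
      norm_num
    have hs : ∑ q ∈ pr X (39 / 400) (9 / 25), ((q : ℝ) ^ 2)⁻¹ ≤ 4 / (X : ℝ) ^ (1 / 25 : ℝ) := by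
      have hkX : k ≤ X := by
        have : ⌈(X : ℝ) ^ (39 / 400 : ℝ)⌉₊ ≤ X := by
          apply Nat.ceil_le.2
          calc (X : ℝ) ^ (39 / 400 : ℝ) ≤ (X : ℝ) ^ (1 : ℝ) := Real.rpow_le_rpow_of_exponent_le hX1 (by norm_num)
            _ = X := Real.rpow_one _
        omega
      calc ∑ q ∈ pr X (39 / 400) (9 / 25), ((q : ℝ) ^ 2)⁻¹ ≤ ∑ q ∈ Ioc k X, ((q : ℝ) ^ 2)⁻¹ := by
            apply sum_le_sum_of_subset_of_nonneg hsub2
            intro q _ _
            positivity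
        _ ≤ (k : ℝ)⁻¹ - (X : ℝ)⁻¹ := sum_Ioc_inv_sq_le_sub (by omega) hkX
        _ ≤ (k : ℝ)⁻¹ := by
            have : (0 : ℝ) ≤ (X : ℝ)⁻¹ := by positivity
            linarith
        _ ≤ ((X : ℝ) ^ (39 / 400 : ℝ) / 2)⁻¹ := inv_anti₀ (by positivity) hkr
        _ = 2 / (X : ℝ) ^ (39 / 400 : ℝ) := by rw [inv_div]
        _ ≤ 2 / (X : ℝ) ^ (1 / 25 : ℝ) := by
            apply div_le_div_of_nonneg_left (by norm_num) (by positivity)
            exact Real.rpow_le_rpow_of_exponent_le hX1 (by norm_num)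
        _ ≤ _ := by
            apply div_le_div_of_nonneg_right _ (by positivity)
            norm_num
    calc (H : ℝ) * ∑ q ∈ pr X (39 / 400) (9 / 25), ((q : ℝ) ^ 2)⁻¹ + ((pr X (39 / 400) (9 / 25)).card : ℝ) ≤
          H * (4 / (X : ℝ) ^ (1 / 25 : ℝ)) + H / (X : ℝ) ^ (1 / 25 : ℝ) :=
          add_le_add (mul_le_mul_of_nonneg_left hs hHr) (hc1.trans hc2)
      _ = _ := by ring
  have hsubset : ((Ioc A (A + H)).filter (fun j => 0 < WW X (39 / 400) (9 / 25) (9 / 11) ((9 / 11) / (9 / 25)) (m * j + a))) ⊆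
      G3L X (39 / 400) m a A H ∪ S2 := by
    intro n hn
    rw [mem_filter] at hn
    obtain ⟨hn1, hn2⟩ := hn
    rw [mem_union]
    by_cases hs : n ∈ S2
    · exact Or.inr hs
    · left
      have hnI := mem_Ioc.1 hn1
      have hn0 : m * n + a ≠ 0 := by
        have : 1 ≤ n := by omega
        have : 0 < m * n := Nat.mul_pos hm this
        omega
      have hsq : ∀ q ∈ pr X (39 / 400) (9 / 25), ¬ q ^ 2 ∣ m * n + a := by
        intro q hq hd
        apply hs
        rw [hS2, mem_biUnion]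
        have hqm : ¬ q ∣ m := by
          intro hqm
          have h3 : q ∣ m * n + a := (Dvd.intro_left (q ^ 1) (by rw [← pow_succ])).trans hd
          have h4 : q ∣ a := (Nat.dvd_add_right (hqm.mul_right n)).1 h3
          exact (hprm q hq).1.one_lt.ne' (Nat.dvd_one.1 (ham ▸ Nat.dvd_gcd h4 hqm))
        refine ⟨q, hq, ?_⟩
        rw [if_neg hqm]
        exact mem_filter.2 ⟨hn1, hd⟩
      have hnX : ((m * n + a : ℕ) : ℝ) ≤ (X : ℝ) ^ (1 : ℝ) := by
        rw [Real.rpow_one]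
        have : m * n ≤ m * (A + H) := Nat.mul_le_mul_left m hnI.2
        exact_mod_cast (by omega : m * n + a ≤ X)
      obtain ⟨r1, r2⟩ := almost X (by omega) (39 / 400) (9 / 25) (9 / 11) 1 3 (by norm_num) (by norm_num) (by norm_num)
        (by norm_num) (by norm_num) (m * n + a) hn0 hnX hn2 hsq
      unfold G3L
      rw [mem_filter]
      exact ⟨hn1, r1, r2⟩
  have hfin : δ * H * V1 X ≤ ((G3L X (39 / 400) m a A H).card : ℝ) + S2.card := by
    refine hmain.trans ?_
    exact_mod_cast (card_le_card hsubset).trans (card_union_le _ _)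
  have hV3 : δ * c * (H / Real.log X) ≤ δ * H * V1 X := by
    calc δ * c * (H / Real.log X) = δ * H * (c / Real.log X) := by ring
      _ ≤ _ := mul_le_mul_of_nonneg_left hV2 (by positivity)
  have hsm : 5 * H / (X : ℝ) ^ (1 / 25 : ℝ) ≤ δ * c / 2 * (H / Real.log X) := by
    rw [mul_div_assoc', div_le_div_iff₀ (by positivity) hlX]
    have h1 : 12 / (δ * c) * Real.log X ≤ (X : ℝ) ^ (1 / 25 : ℝ) :=
      x3.trans (Real.rpow_le_rpow_of_exponent_le hX1 (by norm_num))
    have h2 : 12 * Real.log X ≤ δ * c * (X : ℝ) ^ (1 / 25 : ℝ) := by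
      have h3 := mul_le_mul_of_nonneg_left h1 (show 0 ≤ δ * c by positivity)
      have h4 : δ * c * (12 / (δ * c) * Real.log X) = 12 * Real.log X := by field_simp
      linarith
    nlinarith
  have e : δ * c * (H / Real.log X) = δ * c / 2 * (H / Real.log X) + δ * c / 2 * (H / Real.log X) := by ring
  linarith

end Pool.Agent.Q253.P3
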