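import Pool.Agent.Q253.P3.Lin
import Pool.Agent.Y843.HS.Top

/-!
# Narrow progressions of multipliers `j` with `2 j p + 1` an almost prime
-/

set_option autoImplicit false

namespace Pool.Agent.Q253.P3

open Finset Filter
open Pool.Agent.Y843.HS (Pr VV Pr_mem Pr_prime)
open Pool.Agent.Y843.HG (V1 V1_bounds)

/-- the class of the multipliers -/
def Zl (m a q : ℕ) : Finset ℕ := (range q).filter (fun v => q ∣ m * v + a)

theorem Zl_card {m a q : ℕ} (hq : q.Prime) (ham : Nat.Coprime a m) : (Zl m a q).card = rl m q := by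
  unfold rl
  split_ifs with h
  · rw [card_eq_zero]
    unfold Zl
    apply filter_false_of_mem
    intro v _ hv
    have h4 : q ∣ a := (Nat.dvd_add_right (h.mul_right v)).1 hv
    exact hq.one_lt.ne' (Nat.dvd_one.1 (ham ▸ Nat.dvd_gcd h4 h))
  · have : NeZero q := ⟨hq.ne_zero⟩
    have hmq : Nat.Coprime m q := by
      rw [Nat.coprime_comm]
      exact (Nat.Prime.coprime_iff_not_dvd hq).2 h
    obtain ⟨u, hu⟩ := (ZMod.isUnit_iff_coprime m q).2 hmq
    rw [card_eq_one]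
    refine ⟨((-(a : ZMod q)) * (↑u⁻¹ : ZMod q)).val, ?_⟩
    ext v
    unfold Zl
    rw [mem_filter, mem_range, mem_singleton]
    have h0 : (m : ZMod q) * ((-(a : ZMod q)) * (↑u⁻¹ : ZMod q)) + a = 0 := by
      rw [← hu]
      have : (u : ZMod q) * (-(a : ZMod q) * (↑u⁻¹ : ZMod q)) = -(a : ZMod q) * ((u : ZMod q) * (↑u⁻¹ : ZMod q)) := by ring
      rw [this, Units.mul_inv]
      ring
    constructor
    · rintro ⟨h1, h2⟩
      rw [← ZMod.natCast_eq_zero_iff] at h2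
      push_cast at h2
      have h3 : (m : ZMod q) * (v : ZMod q) = (m : ZMod q) * ((-(a : ZMod q)) * (↑u⁻¹ : ZMod q)) := by
        have := h2.trans h0.symm
        exact add_right_cancel this
      rw [← hu] at h3
      have h4 : (v : ZMod q) = (-(a : ZMod q)) * (↑u⁻¹ : ZMod q) := by
        have := congrArg (fun x => (↑u⁻¹ : ZMod q) * x) h3
        simpa [← mul_assoc] using this
      rw [← h4, ZMod.val_natCast, Nat.mod_eq_of_lt h1]
    · rintro rfl
      refine ⟨ZMod.val_lt _, ?_⟩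
      rw [← ZMod.natCast_eq_zero_iff]
      push_cast
      rw [ZMod.natCast_zmod_val]
      exact h0

theorem mem_Zl {m a q j : ℕ} (hq : q.Prime) : j % q ∈ Zl m a q ↔ q ∣ m * j + a := by
  unfold Zl
  rw [mem_filter, mem_range]
  have h : q ∣ m * (j % q) + a ↔ q ∣ m * j + a := by
    have h1 : m * (j % q) + a ≡ m * j + a [MOD q] := ((Nat.mod_modEq j q).mul_left m).add_right a
    rw [Nat.dvd_iff_mod_eq_zero, Nat.dvd_iff_mod_eq_zero, h1]
  rw [h]
  exact ⟨fun h => h.2, fun h => ⟨Nat.mod_lt _ hq.pos, h⟩⟩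

theorem p3_apl (k : ℕ) (ε : ℝ) (hε : 0 < ε) : ∃ D X₀ : ℕ, ∀ X : ℕ, X₀ ≤ X → ∀ p A H : ℕ, p.Prime → 2 * p * (A + H) + 1 ≤ X →
    (X : ℝ) ^ (2 / 5 : ℝ) ≤ H → ∀ S ⊆ G3L X (39 / 400) (2 * p) 1 A H, ε * (H / Real.log X) ≤ (S.card : ℝ) →
      ∃ a d : ℕ, 1 ≤ d ∧ (d : ℝ) ≤ Real.log X ^ D ∧ ∀ j < k, a + j * d ∈ S := by
  classical
  obtain ⟨c, C, hc, hC, hV⟩ := V1_bounds
  obtain ⟨D, X₁, hfin⟩ := Pool.Agent.Y843.HS.fin k 1 (9 / 100) (ε / (400 * C)) (by norm_num) (by positivity)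
  have ev : ∀ᶠ X : ℕ in atTop, (max 4 (X₁ : ℝ)) ≤ (X : ℝ) ^ (18 / 500 : ℝ) :=
    tendsto_natCast_atTop_atTop.eventually ((tendsto_rpow_atTop (by norm_num)).eventually_ge_atTop _)
  obtain ⟨X₂, hX₂⟩ := eventually_atTop.1 ev
  refine ⟨D, max X₂ 3, ?_⟩
  intro X hX p A H hp hAH hH S hS hSc
  have hX3 : 3 ≤ X := (le_max_right _ _).trans hX
  have hXr : (3 : ℝ) ≤ X := by exact_mod_cast hX3
  have hX0 : (0 : ℝ) < X := by linarith
  have hX1 : (1 : ℝ) ≤ X := by linarith
  have hlX : 0 < Real.log X := Real.log_pos (by linarith)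
  have g1 := hX₂ X ((le_max_left _ _).trans hX)
  have g4 : (4 : ℝ) ≤ (X : ℝ) ^ (18 / 500 : ℝ) := (le_max_left _ _).trans g1
  have g5 : (X₁ : ℝ) ≤ (X : ℝ) ^ (18 / 500 : ℝ) := (le_max_right _ _).trans g1
  have hH0 : (0 : ℝ) < H := lt_of_lt_of_le (by positivity) hH
  have hp1 := hp.pos
  have hHX' : H ≤ X := by nlinarith
  have hHX : (H : ℝ) ≤ X := by exact_mod_cast hHX'
  have hH1 : (1 : ℝ) ≤ H := by
    refine le_trans ?_ hH
    exact Real.one_le_rpow hX1 (by norm_num)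
  have hX1H : X₁ ≤ H := by
    have h1 : (X₁ : ℝ) ≤ H := by
      refine g5.trans (le_trans ?_ hH)
      exact Real.rpow_le_rpow_of_exponent_le hX1 (by norm_num)
    exact_mod_cast h1
  -- the sieve product
  set Y : ℕ := ⌊(H : ℝ) ^ (9 / 100 : ℝ)⌋₊ with hY
  have hHk : (X : ℝ) ^ (18 / 500 : ℝ) ≤ (H : ℝ) ^ (9 / 100 : ℝ) := by
    calc (X : ℝ) ^ (18 / 500 : ℝ) = ((X : ℝ) ^ (2 / 5 : ℝ)) ^ (9 / 100 : ℝ) := by
          rw [← Real.rpow_mul hX0.le]
          norm_num
      _ ≤ _ := Real.rpow_le_rpow (by positivity) hH (by norm_num)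
  have hY1 : (H : ℝ) ^ (9 / 100 : ℝ) / 2 ≤ Y := by
    have h1 := Nat.lt_floor_add_one ((H : ℝ) ^ (9 / 100 : ℝ))
    rw [← hY] at h1
    linarith [g4.trans hHk]
  have hY2 : (X : ℝ) ^ (9 / 500 : ℝ) ≤ Y := by
    refine le_trans ?_ hY1
    have h1 : (X : ℝ) ^ (18 / 500 : ℝ) = (X : ℝ) ^ (9 / 500 : ℝ) * (X : ℝ) ^ (9 / 500 : ℝ) := by
      rw [← Real.rpow_add hX0]
      norm_num
    have h2 : (2 : ℝ) ≤ (X : ℝ) ^ (9 / 500 : ℝ) := by
      by_contra hcon
      push Not at hcon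
      have h3 : 0 < (X : ℝ) ^ (9 / 500 : ℝ) := by positivity
      nlinarith
    have h3 : 2 * (X : ℝ) ^ (9 / 500 : ℝ) ≤ (X : ℝ) ^ (18 / 500 : ℝ) := by
      rw [h1]
      nlinarith
    linarith
  have hY3 : 2 ≤ Y := by
    have h1 : (2 : ℝ) ≤ Y := by linarith [g4.trans hHk]
    exact_mod_cast h1
  have hlY : 9 / 500 * Real.log X ≤ Real.log Y := by
    have h1 := Real.log_le_log (by positivity) hY2
    rwa [Real.log_rpow hX0] at h1
  have hlY0 : 0 < Real.log Y := lt_of_lt_of_le (by positivity) hlY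
  have ham : Nat.Coprime 1 (2 * p) := Nat.coprime_one_left _
  have hVV : VV (Zl (2 * p) 1) 0 Y ≤ 4 * V1 Y := by
    set g : ℕ → ℝ := fun q => if q = 2 ∨ q = p then 2 else 1 with hg
    have h1 : ∀ q ∈ Pr 0 Y, 1 - ((Zl (2 * p) 1 q).card : ℝ) / q ≤ g q * (1 - 1 / (q : ℝ)) := by
      intro q hq
      have hqp := Pr_prime hq
      have h2 := (Pool.Agent.Y843.HG.fac1 hqp).1
      rw [Zl_card hqp ham, hg]
      simp only
      unfold rl
      by_cases h3 : q ∣ 2 * p
      · rw [if_pos h3]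
        have h4 : q = 2 ∨ q = p := by
          rcases (Nat.Prime.dvd_mul hqp).1 h3 with h | h
          · exact Or.inl ((Nat.prime_dvd_prime_iff_eq hqp Nat.prime_two).1 h)
          · exact Or.inr ((Nat.prime_dvd_prime_iff_eq hqp hp).1 h)
        rw [if_pos h4, Nat.cast_zero, zero_div]
        linarith
      · rw [if_neg h3]
        have h4 : ¬ (q = 2 ∨ q = p) := by
          rintro (rfl | rfl)
          · exact h3 (Dvd.intro _ rfl)
          · exact h3 (Dvd.intro_left _ rfl)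
        rw [if_neg h4, Nat.cast_one, one_mul]
    have h2 : VV (Zl (2 * p) 1) 0 Y ≤ ∏ q ∈ Pr 0 Y, g q * (1 - 1 / (q : ℝ)) := by
      apply Finset.prod_le_prod
      · intro q hq
        have hqp := Pr_prime hq
        have hq0 : (1 : ℝ) ≤ q := by exact_mod_cast hqp.one_le
        rw [Zl_card hqp ham, sub_nonneg, div_le_one (by linarith)]
        have : rl (2 * p) q ≤ 1 := by
          unfold rl
          split_ifs <;> simp
        have h4 : (rl (2 * p) q : ℝ) ≤ 1 := by exact_mod_cast this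
        linarith
      · exact h1
    refine h2.trans ?_
    rw [prod_mul_distrib]
    apply mul_le_mul_of_nonneg_right _ (Pool.Agent.Y843.HG.V1_pos Y).le
    rw [hg]
    simp only
    rw [prod_ite, prod_const_one, mul_one, prod_const]
    have h3 : ((Pr 0 Y).filter (fun q => q = 2 ∨ q = p)).card ≤ 2 := by
      have h4 : (Pr 0 Y).filter (fun q => q = 2 ∨ q = p) ⊆ {2, p} := by
        intro q hq
        rw [mem_filter] at hq
        rw [mem_insert, mem_singleton]
        exact hq.2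
      exact (card_le_card h4).trans card_le_two
    calc (2 : ℝ) ^ ((Pr 0 Y).filter (fun q => q = 2 ∨ q = p)).card ≤ 2 ^ 2 := pow_le_pow_right₀ (by norm_num) h3
      _ = 4 := by norm_num
  have hV2 : V1 Y ≤ 100 * C / Real.log X := by
    refine (hV Y hY3).2.trans ?_
    rw [div_le_div_iff₀ hlY0 hlX]
    have h1 : C * Real.log X ≤ C * (500 / 9 * Real.log Y) := mul_le_mul_of_nonneg_left (by linarith) hC.le
    have h2 : 0 ≤ C * Real.log Y := by positivity
    linarith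
  obtain ⟨a, d, hd1, hd2, hd3⟩ := hfin H A hX1H (Zl (2 * p) 1) (by
    intro q hq _
    rw [Zl_card hq ham]
    have h1 : rl (2 * p) q ≤ 1 := by
      unfold rl
      split_ifs <;> simp
    refine ⟨h1, lt_of_le_of_lt h1 hq.one_lt, ?_⟩
    intro x hx
    unfold Zl at hx
    rw [mem_filter, mem_range] at hx
    exact hx.1) S (by
    intro n hn
    have h1 := hS hn
    unfold G3L at h1
    rw [mem_filter] at h1
    exact h1.1) (by
    intro n hn q hq hqH hmem
    rw [mem_Zl hq] at hmem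
    have h1 := hS hn
    unfold G3L at h1
    rw [mem_filter] at h1
    have h2 := h1.2.2 q hq hmem
    have h3 : (X : ℝ) ^ (39 / 400 : ℝ) ≤ (X : ℝ) ^ (9 / 100 : ℝ) :=
      (h2.trans hqH).trans (Real.rpow_le_rpow hH0.le hHX (by norm_num))
    have h4 : (X : ℝ) ^ (9 / 100 : ℝ) < (X : ℝ) ^ (39 / 400 : ℝ) :=
      Real.rpow_lt_rpow_of_exponent_lt (by linarith) (by norm_num)
    linarith) (by
    refine le_trans ?_ hSc
    calc ε / (400 * C) * H * VV (Zl (2 * p) 1) 0 Y ≤ ε / (400 * C) * H * (4 * (100 * C / Real.log X)) := by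
          apply mul_le_mul_of_nonneg_left _ (by positivity)
          exact hVV.trans (mul_le_mul_of_nonneg_left hV2 (by norm_num))
      _ = ε * (H / Real.log X) := by field_simp; norm_num)
  refine ⟨a, d, hd1, hd2.trans ?_, hd3⟩
  exact pow_le_pow_left₀ (Real.log_nonneg hH1) (Real.log_le_log hH0 hHX) D

end Pool.Agent.Q253.P3
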