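import Pool.Agent.Y882.KW.Alm
import Pool.Agent.Y882.KW.Num
import Pool.Agent.W378.DC.MP
import Pool.Agent.Y843.HG.VGold

/-!
# Numbers with at most three prime factors in all intervals of length `X ^ (2/5)`
-/

set_option autoImplicit false

namespace Pool.Agent.Q253.P3

open Finset Filter
open Pool.Agent.W23.DC (pr tt Mer)
open Pool.Agent.Y882 (PZ tt_lt prod_inj)
open Pool.Agent.Y882.KW
open Pool.Agent.Y843.HS (Pr Pr_mem Pr_prime)
open Pool.Agent.Y843.HG (V1 V1_bounds)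

/-- the numerical condition for `τ = 39/100`, `ζ = 39/400`, `υ = 9/25`, three prime factors -/
theorem cond : ∫ x in (39 / 400 : ℝ)..(9 / 25), ((9 / 11 : ℝ) - (9 / 11) / (9 / 25) * x) / (39 / 100 - x) / x <
    Real.log ((39 / 100) / (39 / 400) - 1) / (39 / 100) := by
  apply cond_log (9 / 11) (39 / 100) (39 / 400) (9 / 25) (by norm_num) (by norm_num) (by norm_num) (by norm_num)
  have e1 : ((9 / 25 : ℝ) / (39 / 400)) = 48 / 13 := by norm_num
  have e2 : ((39 / 100 : ℝ) / (9 / 25) - 1) = 1 / 12 := by norm_num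
  have e3 : (((39 / 100 : ℝ) - 39 / 400) / (39 / 100 - 9 / 25)) = 39 / 4 := by norm_num
  have e4 : ((39 / 100 : ℝ) / (39 / 400) - 1) = 3 := by norm_num
  rw [e1, e2, e3, e4]
  have h1 : Real.log (48 / 13) ≤ 2 * Real.log 2 := by
    rw [show (2 : ℝ) * Real.log 2 = Real.log (2 ^ 2) by rw [Real.log_pow]; norm_num]
    apply Real.log_le_log (by norm_num) (by norm_num)
  have h2 : 3 * Real.log 2 ≤ Real.log (39 / 4) := by
    rw [show (3 : ℝ) * Real.log 2 = Real.log (2 ^ 3) by rw [Real.log_pow]; norm_num]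
    apply Real.log_le_log (by norm_num) (by norm_num)
  have h3 := Real.log_two_lt_d9
  have h4 := log3.1
  have h5 : (1 : ℝ) / (9 / 11) = 11 / 9 := by norm_num
  rw [h5]
  linarith

/-- Mertens for `1 / p` -/
theorem mer1 (ε₁ υ η : ℝ) (hε : 0 < ε₁) (hυ : υ ≤ 1) (hη : 0 < η) : ∃ Y0 : ℕ, ∀ Y : ℕ, Y0 ≤ Y →
    Mer (pr Y ε₁ υ) (tt Y) (fun p => ((1 : ℕ) : ℝ) / p) ε₁ υ η := by
  classical
  obtain ⟨N0, H⟩ := Pool.Agent.W378.DC.MP ε₁ (η / 2) hε (by positivity)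
  have h1 : ∀ᶠ Y : ℕ in atTop, 2 * (Real.log (1 / ε₁) + η / 2 + 1) / η ≤ (Y : ℝ) ^ ε₁ :=
    tendsto_natCast_atTop_atTop.eventually ((tendsto_rpow_atTop hε).eventually_ge_atTop _)
  obtain ⟨N1, H1⟩ := eventually_atTop.1 h1
  refine ⟨max (max N0 N1) 2, ?_⟩
  intro Y hY
  have g1 := H Y (((le_max_left _ _).trans (le_max_left _ _)).trans hY)
  have g2 := H1 Y (((le_max_right _ _).trans (le_max_left _ _)).trans hY)
  have hY2 : 2 ≤ Y := (le_max_right _ _).trans hY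
  have hYr : (2 : ℝ) ≤ Y := by exact_mod_cast hY2
  intro a b ha hab hb
  have g3 := g1 a b ha hab (hb.trans hυ)
  have ha0 : 0 < a := lt_of_lt_of_le hε ha
  have hset : (pr Y ε₁ υ).filter (fun p => a ≤ tt Y p ∧ tt Y p < b) = pr Y a b := by
    ext p
    unfold pr
    rw [mem_filter, mem_filter, mem_filter]
    constructor
    · rintro ⟨⟨h1, h2, h3, h4⟩, h5, h6⟩
      exact ⟨h1, h2, h5, h6⟩
    · rintro ⟨h1, h2, h3, h4⟩
      exact ⟨⟨h1, h2, ha.trans h3, h4.trans_le hb⟩, h3, h4⟩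
  rw [hset]
  have hYε : (0 : ℝ) < (Y : ℝ) ^ ε₁ := by positivity
  have hp : ∀ p ∈ pr Y a b, p.Prime ∧ (Y : ℝ) ^ ε₁ ≤ p := by
    intro p hp
    unfold pr at hp
    rw [mem_filter] at hp
    refine ⟨hp.2.1, ?_⟩
    by_contra hlt
    push Not at hlt
    have := (tt_lt Y p ε₁ hY2 hp.2.1.pos).2 hlt
    linarith [hp.2.2.1]
  have hdiff : |∑ p ∈ pr Y a b, ((1 : ℕ) : ℝ) / p - ∑ p ∈ pr Y a b, 1 / ((p : ℝ) - 1)| ≤
      ((Y : ℝ) ^ ε₁)⁻¹ * ∑ p ∈ pr Y a b, 1 / ((p : ℝ) - 1) := by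
    rw [← sum_sub_distrib, mul_sum]
    refine (abs_sum_le_sum_abs _ _).trans (sum_le_sum fun p hpp => ?_)
    obtain ⟨q1, q2⟩ := hp p hpp
    have q3 : (2 : ℝ) ≤ p := by exact_mod_cast q1.two_le
    have q4 : (0 : ℝ) < (p : ℝ) - 1 := by linarith
    have q5 : ((1 : ℕ) : ℝ) / p - 1 / ((p : ℝ) - 1) = -((1 / (p : ℝ)) * (1 / ((p : ℝ) - 1))) := by
      push_cast
      field_simp
      ring
    rw [q5, abs_neg, abs_of_nonneg (by positivity)]
    apply mul_le_mul_of_nonneg_right _ (by positivity)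
    rw [one_div]
    exact inv_anti₀ hYε q2
  have hsum : ∑ p ∈ pr Y a b, 1 / ((p : ℝ) - 1) ≤ Real.log (1 / ε₁) + η / 2 := by
    have h2 := (abs_le.1 g3).2
    have h3 : Real.log (b / a) ≤ Real.log (1 / ε₁) := by
      apply Real.log_le_log (div_pos (lt_of_lt_of_le ha0 hab) ha0)
      apply div_le_div₀ zero_le_one (hb.trans hυ) hε ha
    linarith
  have hsum0 : 0 ≤ ∑ p ∈ pr Y a b, 1 / ((p : ℝ) - 1) := by
    apply sum_nonneg
    intro p hpp
    have q3 : (2 : ℝ) ≤ p := by exact_mod_cast (hp p hpp).1.two_le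
    have q4 : (0 : ℝ) < (p : ℝ) - 1 := by linarith
    positivity
  have h4 : ((Y : ℝ) ^ ε₁)⁻¹ * ∑ p ∈ pr Y a b, 1 / ((p : ℝ) - 1) ≤ η / 2 := by
    rw [inv_mul_le_iff₀ hYε]
    rw [div_le_iff₀ hη] at g2
    nlinarith
  calc |∑ p ∈ pr Y a b, ((1 : ℕ) : ℝ) / p - Real.log (b / a)| =
        |(∑ p ∈ pr Y a b, ((1 : ℕ) : ℝ) / p - ∑ p ∈ pr Y a b, 1 / ((p : ℝ) - 1)) +
          (∑ p ∈ pr Y a b, 1 / ((p : ℝ) - 1) - Real.log (b / a))| := by ring_nf
    _ ≤ _ := abs_add_le _ _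
    _ ≤ η / 2 + η / 2 := add_le_add (hdiff.trans h4) g3
    _ = η := by ring

theorem card_mult (A H d : ℕ) (hd : 0 < d) :
    |((((Ioc A (A + H)).filter (fun j => d ∣ j)).card : ℝ)) - (H : ℝ) / d| ≤ 1 := by
  have h1 : (Ioc 0 (A + H)).filter (fun j => d ∣ j) =
      ((Ioc 0 A).filter (fun j => d ∣ j)) ∪ ((Ioc A (A + H)).filter (fun j => d ∣ j)) := by
    rw [← filter_union]
    congr 1
    ext j
    rw [mem_union, mem_Ioc, mem_Ioc, mem_Ioc]
    omega
  have h2 : Disjoint ((Ioc 0 A).filter (fun j => d ∣ j)) ((Ioc A (A + H)).filter (fun j => d ∣ j)) := by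
    apply disjoint_filter_filter
    rw [disjoint_left]
    intro j hj hj'
    rw [mem_Ioc] at hj hj'
    omega
  have h3 := congrArg card h1
  rw [card_union_of_disjoint h2, Nat.Ioc_filter_dvd_card_eq_div, Nat.Ioc_filter_dvd_card_eq_div] at h3
  have h4 : ((((Ioc A (A + H)).filter (fun j => d ∣ j)).card : ℕ) : ℝ) = (((A + H) / d : ℕ) : ℝ) - ((A / d : ℕ) : ℝ) := by
    rw [h3]
    push_cast
    ring
  rw [h4]
  have hdr : (0 : ℝ) < d := by exact_mod_cast hd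
  have a1 : ((A / d : ℕ) : ℝ) ≤ (A : ℝ) / d := Nat.cast_div_le
  have a2 : (A : ℝ) / d < ((A / d : ℕ) : ℝ) + 1 := by
    rw [div_lt_iff₀ hdr]
    have := Nat.lt_div_mul_add (a := A) hd
    have h3 : (A : ℝ) < (A / d : ℕ) * d + d := by exact_mod_cast this
    linarith
  have b1 : (((A + H) / d : ℕ) : ℝ) ≤ ((A + H : ℕ) : ℝ) / d := Nat.cast_div_le
  have b2 : ((A + H : ℕ) : ℝ) / d < (((A + H) / d : ℕ) : ℝ) + 1 := by
    rw [div_lt_iff₀ hdr]
    have := Nat.lt_div_mul_add (a := A + H) hd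
    have h3 : ((A + H : ℕ) : ℝ) < ((A + H) / d : ℕ) * d + d := by exact_mod_cast this
    linarith
  have e : ((A + H : ℕ) : ℝ) / d = (A : ℝ) / d + (H : ℝ) / d := by
    push_cast
    rw [add_div]
  rw [e] at b1 b2
  rw [abs_le]
  constructor <;> linarith

/-- the numbers of `(A, A + H]` with at most three prime factors, all at least `X ^ ζ` -/
noncomputable def G3 (X : ℕ) (ζ : ℝ) (A H : ℕ) : Finset ℕ :=
  open Classical in (Ioc A (A + H)).filter (fun n => n.primeFactorsList.length ≤ 3 ∧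
    ∀ q : ℕ, q.Prime → q ∣ n → (X : ℝ) ^ ζ ≤ q)

/-- **Numbers with at most three prime factors in all intervals of length `X ^ (2/5)`.** -/
theorem p3 : ∃ δ : ℝ, 0 < δ ∧ ∃ X₀ : ℕ, ∀ X : ℕ, X₀ ≤ X → ∀ A H : ℕ, A + H ≤ X → (X : ℝ) ^ (2 / 5 : ℝ) ≤ H →
    δ * (H / Real.log X) ≤ ((G3 X (39 / 400) A H).card : ℝ) := by
  classical
  obtain ⟨δ, ε₁, η, hδ, hε₁, hε₁ζ, hε₁β, hη, Y0, HC⟩ := core4 1 (39 / 100) (39 / 400) (9 / 25) (9 / 11)
    ((9 / 11) / (9 / 25)) (197 / 500) 1 (1 / 1000) (by norm_num) (by norm_num) (by norm_num) (by norm_num)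
    (by norm_num) (by norm_num) (by norm_num) (by norm_num) (by norm_num) cond (by norm_num) (by norm_num) (by norm_num)
  obtain ⟨Y1, HM⟩ := mer1 ε₁ (9 / 25) η hε₁ (by norm_num) hη
  obtain ⟨c, C, hc, hC, hV⟩ := V1_bounds
  -- eventual inequalities
  have hlog : ∀ K s : ℝ, 0 < K → 0 < s → ∀ᶠ X : ℕ in atTop, K * Real.log X ≤ (X : ℝ) ^ s := by
    intro K s hK hs
    have h1 := (isLittleO_log_rpow_atTop hs).def (show (0 : ℝ) < 1 / K by positivity)
    have h2 := (tendsto_natCast_atTop_atTop (R := ℝ)).eventually h1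
    filter_upwards [h2, eventually_ge_atTop 1] with X hX h1
    have hX1 : (1 : ℝ) ≤ X := by exact_mod_cast h1
    rw [Real.norm_of_nonneg (Real.log_nonneg hX1), Real.norm_of_nonneg (by positivity)] at hX
    calc K * Real.log X ≤ K * (1 / K * (X : ℝ) ^ s) := mul_le_mul_of_nonneg_left hX hK.le
      _ = _ := by field_simp
  obtain ⟨X1, e1⟩ := eventually_atTop.1 ((hlog 5 (1 / 500) (by norm_num) (by norm_num)).and
    ((hlog (12 / (δ * c)) (1 / 100) (by positivity) (by norm_num)).and (eventually_ge_atTop 3)))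
  refine ⟨δ * c / 2, by positivity, max (max Y0 Y1) X1, ?_⟩
  intro X hX A H hAH hH
  have x0 : Y0 ≤ X := ((le_max_left _ _).trans (le_max_left _ _)).trans hX
  have x1 : Y1 ≤ X := ((le_max_right _ _).trans (le_max_left _ _)).trans hX
  obtain ⟨x2, x3, x4⟩ := e1 X ((le_max_right _ _).trans hX)
  have hXr : (3 : ℝ) ≤ X := by exact_mod_cast x4
  have hX1 : (1 : ℝ) ≤ X := by linarith
  have hX0 : (0 : ℝ) < X := by linarith
  have hlX : 0 < Real.log X := Real.log_pos (by linarith)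
  obtain ⟨cw, hw1, hw2, hw3⟩ := HC X x0
  have hPZ : ∀ w : ℝ, ∀ p ∈ PZ X w, p.Prime := by
    intro w p hp
    unfold PZ at hp
    rw [mem_filter] at hp
    exact hp.2.1
  have hJ : (Ioc A (A + H)).card = H := by rw [Nat.card_Ioc]; omega
  have hHr : (0 : ℝ) ≤ H := Nat.cast_nonneg H
  -- the remainder
  have hrem : |∑ T ∈ (PZ X (9 / 25)).powerset, cw T * ((((Ioc A (A + H)).filter (fun j => ∏ p ∈ T, p ∣ j)).card : ℝ) -
      (Ioc A (A + H)).card * ∏ p ∈ T, (((1 : ℕ) : ℝ) / p))| ≤ (Ioc A (A + H)).card * (X : ℝ) ^ (-(1 / 1000 : ℝ)) := by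
    rw [hJ]
    have hterm : ∀ T ∈ (PZ X (9 / 25)).powerset, |cw T * ((((Ioc A (A + H)).filter (fun j => ∏ p ∈ T, p ∣ j)).card : ℝ) -
        H * ∏ p ∈ T, (((1 : ℕ) : ℝ) / p))| ≤ if cw T ≠ 0 then 5 * Real.log X else 0 := by
      intro T hT
      rw [mem_powerset] at hT
      split_ifs with h0
      · rw [abs_mul]
        have h1 : ∏ p ∈ T, (((1 : ℕ) : ℝ) / p) = 1 / ((∏ p ∈ T, p : ℕ) : ℝ) := by
          rw [prod_div_distrib, prod_const]
          push_cast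
          rw [one_pow]
        have hd : 0 < ∏ p ∈ T, p := prod_pos fun p hp => (hPZ _ p (hT hp)).pos
        rw [h1, mul_one_div]
        have h2 := card_mult A H (∏ p ∈ T, p) hd
        calc |cw T| * _ ≤ (5 * Real.log X) * 1 := mul_le_mul (hw1 T) h2 (abs_nonneg _) (by positivity)
          _ = _ := mul_one _
      · push Not at h0
        rw [h0, zero_mul, abs_zero]
    refine (abs_sum_le_sum_abs _ _).trans ((sum_le_sum hterm).trans ?_)
    rw [← sum_filter, sum_const, nsmul_eq_mul]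
    have hcard : ((((PZ X (9 / 25)).powerset.filter (fun T => cw T ≠ 0)).card : ℕ) : ℝ) ≤ (X : ℝ) ^ (197 / 500 : ℝ) := by
      have h1 : ((PZ X (9 / 25)).powerset.filter (fun T => cw T ≠ 0)).card ≤
          (Icc 1 ⌊(X : ℝ) ^ (197 / 500 : ℝ)⌋₊).card := by
        apply card_le_card_of_injOn (fun T => ∏ p ∈ T, p)
        · intro T hT
          rw [coe_filter, Set.mem_ofPred_eq, mem_powerset] at hT
          rw [coe_Icc, Set.mem_Icc]
          exact ⟨Nat.pos_of_ne_zero (prod_ne_zero_iff.2 fun p hp => (hPZ _ p (hT.1 hp)).ne_zero),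
            Nat.le_floor (hw2 T hT.1 hT.2)⟩
        · intro T hT T' hT' he
          rw [coe_filter, Set.mem_ofPred_eq, mem_powerset] at hT hT'
          exact prod_inj _ (hPZ _) hT.1 hT'.1 he
      rw [Nat.card_Icc, Nat.add_sub_cancel] at h1
      calc ((((PZ X (9 / 25)).powerset.filter (fun T => cw T ≠ 0)).card : ℕ) : ℝ) ≤
            (⌊(X : ℝ) ^ (197 / 500 : ℝ)⌋₊ : ℝ) := by exact_mod_cast h1
        _ ≤ _ := Nat.floor_le (by positivity)
    calc ((((PZ X (9 / 25)).powerset.filter (fun T => cw T ≠ 0)).card : ℕ) : ℝ) * (5 * Real.log X) ≤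
          (X : ℝ) ^ (197 / 500 : ℝ) * (X : ℝ) ^ (1 / 500 : ℝ) := by gcongr
      _ = (X : ℝ) ^ (198 / 500 : ℝ) := by
          rw [← Real.rpow_add hX0]
          norm_num
      _ ≤ (X : ℝ) ^ (2 / 5 : ℝ) * (X : ℝ) ^ (-(1 / 1000 : ℝ)) := by
          rw [← Real.rpow_add hX0]
          apply Real.rpow_le_rpow_of_exponent_le hX1
          norm_num
      _ ≤ _ := by gcongr
  have hmain := hw3 (Ioc A (A + H)) (fun j => j) (fun _ => 1) X (by rw [Real.rpow_one]) (fun _ _ => le_rfl)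
    (fun p hp => hp.one_le) (HM X x1) hrem
  rw [hJ] at hmain
  have hVX : ∏ p ∈ (Icc 1 X).filter Nat.Prime, (1 - ((1 : ℕ) : ℝ) / p) = V1 X := by
    unfold V1
    apply prod_congr
    · ext q
      rw [Pr_mem, mem_filter, mem_Icc]
      constructor
      · rintro ⟨⟨a, b⟩, c⟩
        exact ⟨⟨c.pos, b⟩, c⟩
      · rintro ⟨⟨a, b⟩, c⟩
        exact ⟨⟨c.pos, b⟩, c⟩
    · intro q _
      push_cast
      rfl
  rw [hVX] at hmain
  have hV2 := (hV X (by omega)).1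
  -- the squares
  set S2 : Finset ℕ := (pr X (39 / 400) (9 / 25)).biUnion (fun q => (Ioc A (A + H)).filter (fun n => q ^ 2 ∣ n)) with hS2
  have hprm : ∀ q ∈ pr X (39 / 400) (9 / 25), q.Prime ∧ (X : ℝ) ^ (39 / 400 : ℝ) ≤ q ∧ (q : ℝ) < (X : ℝ) ^ (9 / 25 : ℝ) := by
    intro q hq
    unfold pr at hq
    rw [mem_filter] at hq
    refine ⟨hq.2.1, ?_, (tt_lt X q _ (by omega) hq.2.1.pos).1 hq.2.2.2⟩
    by_contra hlt
    push Not at hlt
    have := (tt_lt X q (39 / 400) (by omega) hq.2.1.pos).2 hlt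
    linarith [hq.2.2.1]
  have hk1 : (2 : ℝ) ≤ (X : ℝ) ^ (39 / 400 : ℝ) := by
    have h1 := Real.log_le_sub_one_of_pos (show (0 : ℝ) < X by linarith)
    have h2 : 5 * 1 ≤ 5 * Real.log X := by
      apply mul_le_mul_of_nonneg_left _ (by norm_num)
      rw [Real.le_log_iff_exp_le hX0]
      linarith [Real.exp_one_lt_d9]
    calc (2 : ℝ) ≤ 5 * Real.log X := by linarith
      _ ≤ (X : ℝ) ^ (1 / 500 : ℝ) := x2
      _ ≤ _ := Real.rpow_le_rpow_of_exponent_le hX1 (by norm_num)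
  set k : ℕ := ⌈(X : ℝ) ^ (39 / 400 : ℝ)⌉₊ - 1 with hk
  have hceil := Nat.le_ceil ((X : ℝ) ^ (39 / 400 : ℝ))
  have hc1 : 2 ≤ ⌈(X : ℝ) ^ (39 / 400 : ℝ)⌉₊ := by
    have : (2 : ℝ) ≤ ⌈(X : ℝ) ^ (39 / 400 : ℝ)⌉₊ := hk1.trans hceil
    exact_mod_cast this
  have hkr : (X : ℝ) ^ (39 / 400 : ℝ) / 2 ≤ k := by
    have h1 : ((k : ℕ) : ℝ) = ⌈(X : ℝ) ^ (39 / 400 : ℝ)⌉₊ - 1 := by
      rw [hk, Nat.cast_sub (by omega)]
      push_cast
      ring
    rw [h1]
    linarith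
  have hS2c : (S2.card : ℝ) ≤ 5 * H / (X : ℝ) ^ (1 / 25 : ℝ) := by
    have h1 : (S2.card : ℝ) ≤ ∑ q ∈ pr X (39 / 400) (9 / 25), ((H : ℝ) * ((q : ℝ) ^ 2)⁻¹ + 1) := by
      calc (S2.card : ℝ) ≤ ∑ q ∈ pr X (39 / 400) (9 / 25), ((((Ioc A (A + H)).filter (fun n => q ^ 2 ∣ n)).card : ℕ) : ℝ) := by
            exact_mod_cast card_biUnion_le
        _ ≤ _ := by
            apply sum_le_sum
            intro q hq
            have h2 := card_mult A H (q ^ 2) (pow_pos (hprm q hq).1.pos 2)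
            have h3 := (abs_le.1 h2).2
            push_cast at h3
            rw [div_eq_mul_inv] at h3
            linarith
    refine h1.trans ?_
    rw [sum_add_distrib, sum_const, nsmul_eq_mul, mul_one, ← mul_sum]
    have hsub : pr X (39 / 400) (9 / 25) ⊆ Ioc 0 ⌊(X : ℝ) ^ (9 / 25 : ℝ)⌋₊ := by
      intro q hq
      obtain ⟨q1, q2, q3⟩ := hprm q hq
      rw [mem_Ioc]
      exact ⟨q1.pos, Nat.le_floor q3.le⟩
    have hsub2 : pr X (39 / 400) (9 / 25) ⊆ Ioc k X := by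
      intro q hq
      obtain ⟨q1, q2, q3⟩ := hprm q hq
      rw [mem_Ioc]
      constructor
      · have := Nat.ceil_le.2 q2
        omega
      · have : (q : ℝ) ≤ X := by
          refine q3.le.trans ?_
          calc (X : ℝ) ^ (9 / 25 : ℝ) ≤ (X : ℝ) ^ (1 : ℝ) := Real.rpow_le_rpow_of_exponent_le hX1 (by norm_num)
            _ = X := Real.rpow_one _
        exact_mod_cast this
    have hc1 : ((pr X (39 / 400) (9 / 25)).card : ℝ) ≤ (X : ℝ) ^ (9 / 25 : ℝ) := by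
      have := card_le_card hsub
      rw [Nat.card_Ioc, Nat.sub_zero] at this
      calc ((pr X (39 / 400) (9 / 25)).card : ℝ) ≤ (⌊(X : ℝ) ^ (9 / 25 : ℝ)⌋₊ : ℝ) := by exact_mod_cast this
        _ ≤ _ := Nat.floor_le (by positivity)
    have hc2 : (X : ℝ) ^ (9 / 25 : ℝ) ≤ H / (X : ℝ) ^ (1 / 25 : ℝ) := by
      rw [le_div_iff₀ (by positivity), ← Real.rpow_add hX0]
      refine le_trans ?_ hH
      apply Real.rpow_le_rpow_of_exponent_le hX1
      norm_num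
    have hs : ∑ q ∈ pr X (39 / 400) (9 / 25), ((q : ℝ) ^ 2)⁻¹ ≤ 4 / (X : ℝ) ^ (1 / 25 : ℝ) := by
      have hkX : k ≤ X := by
        have : ⌈(X : ℝ) ^ (39 / 400 : ℝ)⌉₊ ≤ X := by
          apply Nat.ceil_le.2
          calc (X : ℝ) ^ (39 / 400 : ℝ) ≤ (X : ℝ) ^ (1 : ℝ) := Real.rpow_le_rpow_of_exponent_le hX1 (by norm_num)
            _ = X := Real.rpow_one _
        omega
      calc ∑ q ∈ pr X (39 / 400) (9 / 25), ((q : ℝ) ^ 2)⁻¹ ≤ ∑ q ∈ Ioc k X, ((q : ℝ) ^ 2)⁻¹ := by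
            apply sum_le_sum_of_subset_of_nonneg hsub2
            intro q _ _
            positivity
        _ ≤ (k : ℝ)⁻¹ - (X : ℝ)⁻¹ := sum_Ioc_inv_sq_le_sub (by omega) hkX
        _ ≤ (k : ℝ)⁻¹ := by
            have : (0 : ℝ) ≤ (X : ℝ)⁻¹ := by positivity
            linarith
        _ ≤ ((X : ℝ) ^ (39 / 400 : ℝ) / 2)⁻¹ := inv_anti₀ (by positivity) hkr
        _ = 2 / (X : ℝ) ^ (39 / 400 : ℝ) := by rw [inv_div]
        _ ≤ 2 / (X : ℝ) ^ (1 / 25 : ℝ) := by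
            apply div_le_div_of_nonneg_left (by norm_num) (by positivity)
            exact Real.rpow_le_rpow_of_exponent_le hX1 (by norm_num)
        _ ≤ _ := by
            apply div_le_div_of_nonneg_right _ (by positivity)
            norm_num
    calc (H : ℝ) * ∑ q ∈ pr X (39 / 400) (9 / 25), ((q : ℝ) ^ 2)⁻¹ + ((pr X (39 / 400) (9 / 25)).card : ℝ) ≤
          H * (4 / (X : ℝ) ^ (1 / 25 : ℝ)) + H / (X : ℝ) ^ (1 / 25 : ℝ) :=
          add_le_add (mul_le_mul_of_nonneg_left hs hHr) (hc1.trans hc2)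
      _ = _ := by ring
  have hsubset : ((Ioc A (A + H)).filter (fun j => 0 < WW X (39 / 400) (9 / 25) (9 / 11) ((9 / 11) / (9 / 25)) j)) ⊆
      G3 X (39 / 400) A H ∪ S2 := by
    intro n hn
    rw [mem_filter] at hn
    obtain ⟨hn1, hn2⟩ := hn
    rw [mem_union]
    by_cases hs : n ∈ S2
    · exact Or.inr hs
    · left
      have hnI := mem_Ioc.1 hn1
      have hn0 : n ≠ 0 := by omega
      have hsq : ∀ q ∈ pr X (39 / 400) (9 / 25), ¬ q ^ 2 ∣ n := by
        intro q hq hd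
        apply hs
        rw [hS2, mem_biUnion]
        exact ⟨q, hq, mem_filter.2 ⟨hn1, hd⟩⟩
      have hnX : (n : ℝ) ≤ (X : ℝ) ^ (1 : ℝ) := by
        rw [Real.rpow_one]
        exact_mod_cast (by omega : n ≤ X)
      obtain ⟨r1, r2⟩ := almost X (by omega) (39 / 400) (9 / 25) (9 / 11) 1 3 (by norm_num) (by norm_num) (by norm_num)
        (by norm_num) (by norm_num) n hn0 hnX hn2 hsq
      unfold G3
      rw [mem_filter]
      exact ⟨hn1, r1, r2⟩
  have hfin : δ * H * V1 X ≤ ((G3 X (39 / 400) A H).card : ℝ) + S2.card := by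
    refine hmain.trans ?_
    exact_mod_cast (card_le_card hsubset).trans (card_union_le _ _)
  have hV3 : δ * c * (H / Real.log X) ≤ δ * H * V1 X := by
    calc δ * c * (H / Real.log X) = δ * H * (c / Real.log X) := by ring
      _ ≤ _ := mul_le_mul_of_nonneg_left hV2 (by positivity)
  have hsm : 5 * H / (X : ℝ) ^ (1 / 25 : ℝ) ≤ δ * c / 2 * (H / Real.log X) := by
    rw [mul_div_assoc', div_le_div_iff₀ (by positivity) hlX]
    have h1 : 12 / (δ * c) * Real.log X ≤ (X : ℝ) ^ (1 / 25 : ℝ) :=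
      x3.trans (Real.rpow_le_rpow_of_exponent_le hX1 (by norm_num))
    have h2 : 12 * Real.log X ≤ δ * c * (X : ℝ) ^ (1 / 25 : ℝ) := by
      have h3 := mul_le_mul_of_nonneg_left h1 (show 0 ≤ δ * c by positivity)
      have h4 : δ * c * (12 / (δ * c) * Real.log X) = 12 * Real.log X := by field_simp
      linarith
    nlinarith
  have e : δ * c * (H / Real.log X) = δ * c / 2 * (H / Real.log X) + δ * c / 2 * (H / Real.log X) := by ring
  linarith

end Pool.Agent.Q253.P3
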