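import Pool.Agent.Q253.P3.Base
import Pool.Agent.Y843.HS.Top

/-!
# Narrow progressions in the dense subsets of the numbers with at most three prime factors in short intervals
-/

set_option autoImplicit false

namespace Pool.Agent.Q253.P3

open Finset Filter
open Pool.Agent.Y843.HS (Pr VV Pr_mem Pr_prime)
open Pool.Agent.Y843.HG (V1 V1_bounds)

theorem p3_ap (k : ℕ) (ε : ℝ) (hε : 0 < ε) : ∃ D X₀ : ℕ, ∀ X : ℕ, X₀ ≤ X → ∀ A H : ℕ, A + H ≤ X →
    (X : ℝ) ^ (2 / 5 : ℝ) ≤ H → ∀ S ⊆ G3 X (39 / 400) A H, ε * (H / Real.log X) ≤ (S.card : ℝ) →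
      ∃ a d : ℕ, 1 ≤ d ∧ (d : ℝ) ≤ Real.log X ^ D ∧ ∀ j < k, a + j * d ∈ S := by
  classical
  obtain ⟨c, C, hc, hC, hV⟩ := V1_bounds
  obtain ⟨D, X₁, hfin⟩ := Pool.Agent.Y843.HS.fin k 1 (9 / 100) (ε / (100 * C)) (by norm_num) (by positivity)
  have ev : ∀ᶠ X : ℕ in atTop, (max 4 (X₁ : ℝ)) ≤ (X : ℝ) ^ (18 / 500 : ℝ) :=
    tendsto_natCast_atTop_atTop.eventually ((tendsto_rpow_atTop (by norm_num)).eventually_ge_atTop _)
  obtain ⟨X₂, hX₂⟩ := eventually_atTop.1 ev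
  refine ⟨D, max X₂ 3, ?_⟩
  intro X hX A H hAH hH S hS hSc
  have hX3 : 3 ≤ X := (le_max_right _ _).trans hX
  have hXr : (3 : ℝ) ≤ X := by exact_mod_cast hX3
  have hX0 : (0 : ℝ) < X := by linarith
  have hX1 : (1 : ℝ) ≤ X := by linarith
  have hlX : 0 < Real.log X := Real.log_pos (by linarith)
  have g1 := hX₂ X ((le_max_left _ _).trans hX)
  have g4 : (4 : ℝ) ≤ (X : ℝ) ^ (18 / 500 : ℝ) := (le_max_left _ _).trans g1
  have g5 : (X₁ : ℝ) ≤ (X : ℝ) ^ (18 / 500 : ℝ) := (le_max_right _ _).trans g1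
  have hH0 : (0 : ℝ) < H := lt_of_lt_of_le (by positivity) hH
  have hHX : (H : ℝ) ≤ X := by exact_mod_cast (by omega : H ≤ X)
  have hH1 : (1 : ℝ) ≤ H := by
    refine le_trans ?_ hH
    exact Real.one_le_rpow hX1 (by norm_num)
  have hX1H : X₁ ≤ H := by
    have h1 : (X₁ : ℝ) ≤ H := by
      refine g5.trans (le_trans ?_ hH)
      exact Real.rpow_le_rpow_of_exponent_le hX1 (by norm_num)
    exact_mod_cast h1
  -- the sieve product
  set Y : ℕ := ⌊(H : ℝ) ^ (9 / 100 : ℝ)⌋₊ with hY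
  have hHk : (X : ℝ) ^ (18 / 500 : ℝ) ≤ (H : ℝ) ^ (9 / 100 : ℝ) := by
    calc (X : ℝ) ^ (18 / 500 : ℝ) = ((X : ℝ) ^ (2 / 5 : ℝ)) ^ (9 / 100 : ℝ) := by
          rw [← Real.rpow_mul hX0.le]
          norm_num
      _ ≤ _ := Real.rpow_le_rpow (by positivity) hH (by norm_num)
  have hY1 : (H : ℝ) ^ (9 / 100 : ℝ) / 2 ≤ Y := by
    have h1 := Nat.lt_floor_add_one ((H : ℝ) ^ (9 / 100 : ℝ))
    rw [← hY] at h1
    linarith [g4.trans hHk]
  have hY2 : (X : ℝ) ^ (9 / 500 : ℝ) ≤ Y := by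
    refine le_trans ?_ hY1
    have h1 : (X : ℝ) ^ (18 / 500 : ℝ) = (X : ℝ) ^ (9 / 500 : ℝ) * (X : ℝ) ^ (9 / 500 : ℝ) := by
      rw [← Real.rpow_add hX0]
      norm_num
    have h2 : (2 : ℝ) ≤ (X : ℝ) ^ (9 / 500 : ℝ) := by
      by_contra hcon
      push Not at hcon
      have h3 : 0 < (X : ℝ) ^ (9 / 500 : ℝ) := by positivity
      nlinarith
    have h3 : 2 * (X : ℝ) ^ (9 / 500 : ℝ) ≤ (X : ℝ) ^ (18 / 500 : ℝ) := by
      rw [h1]
      nlinarith
    linarith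
  have hY3 : 2 ≤ Y := by
    have h1 : (2 : ℝ) ≤ Y := by linarith [g4.trans hHk]
    exact_mod_cast h1
  have hlY : 9 / 500 * Real.log X ≤ Real.log Y := by
    have h1 := Real.log_le_log (by positivity) hY2
    rwa [Real.log_rpow hX0] at h1
  have hlY0 : 0 < Real.log Y := lt_of_lt_of_le (by positivity) hlY
  have hVV : VV (fun _ => ({0} : Finset ℕ)) 0 Y = V1 Y := by
    unfold VV V1
    apply prod_congr rfl
    intro p _
    rw [card_singleton]
    norm_num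
  have hV2 : V1 Y ≤ 100 * C / Real.log X := by
    refine (hV Y hY3).2.trans ?_
    rw [div_le_div_iff₀ hlY0 hlX]
    have h1 : C * Real.log X ≤ C * (500 / 9 * Real.log Y) := mul_le_mul_of_nonneg_left (by linarith) hC.le
    have h2 : 0 ≤ C * Real.log Y := by positivity
    linarith
  obtain ⟨a, d, hd1, hd2, hd3⟩ := hfin H A hX1H (fun _ => {0}) (by
    intro p hp _
    refine ⟨by simp, ?_, ?_⟩
    · rw [card_singleton]
      exact hp.one_lt
    · intro x hx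
      rw [mem_singleton] at hx
      rw [hx]
      exact hp.pos) S (by
    intro n hn
    have h1 := hS hn
    unfold G3 at h1
    rw [mem_filter] at h1
    exact h1.1) (by
    intro n hn p hp hpH hmem
    rw [mem_singleton] at hmem
    have h1 := hS hn
    unfold G3 at h1
    rw [mem_filter] at h1
    have h2 := h1.2.2 p hp (Nat.dvd_of_mod_eq_zero hmem)
    have h3 : (X : ℝ) ^ (39 / 400 : ℝ) ≤ (X : ℝ) ^ (9 / 100 : ℝ) :=
      (h2.trans hpH).trans (Real.rpow_le_rpow hH0.le hHX (by norm_num))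
    have h4 : (X : ℝ) ^ (9 / 100 : ℝ) < (X : ℝ) ^ (39 / 400 : ℝ) :=
      Real.rpow_lt_rpow_of_exponent_lt (by linarith) (by norm_num)
    linarith) (by
    rw [hVV]
    refine le_trans ?_ hSc
    calc ε / (100 * C) * H * V1 Y ≤ ε / (100 * C) * H * (100 * C / Real.log X) :=
          mul_le_mul_of_nonneg_left hV2 (by positivity)
      _ = ε * (H / Real.log X) := by field_simp)
  refine ⟨a, d, hd1, hd2.trans ?_, hd3⟩
  exact pow_le_pow_left₀ (Real.log_nonneg hH1) (Real.log_le_log hH0 hHX) D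

end Pool.Agent.Q253.P3
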