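import Pool.Agent.Q253.P3.Base
import Pool.Agent.Q253.Thin.Main

/-!
# A thin set of primes for the numbers with at most three prime factors in all short intervals
-/

set_option autoImplicit false

namespace Pool.Agent.Q253.P3

open Finset Filter
open Pool.Agent.W23.DC (pr tt Mer)
open Pool.Agent.Y882 (PZ tt_lt prod_inj)
open Pool.Agent.Q253.Thin (tower hit2)

open Classical in
/-- the union of sets `T i` of primes above `(2 ^ 2 ^ i) ^ (1 / e)`, with `O(4 ^ i)` elements, has `O(log ^ 2 x)` elements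
up to `x` -/
theorem thin_union2 (T : ℕ → Finset ℕ) (C : ℝ) (hC : 0 < C) (e : ℕ) (he : 1 ≤ e)
    (hT : ∀ i, ∀ q ∈ T i, q.Prime ∧ 2 ^ 2 ^ i < q ^ e)
    (hc : ∀ i, ((T i).card : ℝ) ≤ C * Real.log ((2 ^ 2 ^ i : ℕ) : ℝ) ^ 2) (x : ℕ) (hx : 2 ≤ x) :
    ((((Icc 1 x).filter (fun q => ∃ i, q ∈ T i)).card : ℕ) : ℝ) ≤ 2 * C * e ^ 2 * Real.log x ^ 2 := by
  classical
  have hx9 : 2 ≤ x ^ e := hx.trans (Nat.le_self_pow (by omega) x)
  have hL1 : 1 ≤ Nat.log 2 (x ^ e) :=
    (Nat.le_log_iff_pow_le (by norm_num) (by omega)).2 (by simpa using hx9)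
  set n := Nat.log 2 (Nat.log 2 (x ^ e)) with hn
  have hsub : (Icc 1 x).filter (fun q => ∃ i, q ∈ T i) ⊆ (range (n + 1)).biUnion T := by
    intro q hq
    rw [mem_filter, mem_Icc] at hq
    obtain ⟨⟨_, hqx⟩, i, hi⟩ := hq
    rw [mem_biUnion]
    refine ⟨i, ?_, hi⟩
    rw [mem_range]
    have h2 := (hT i q hi).2
    have h4 : 2 ^ 2 ^ i ≤ x ^ e := (h2.le).trans (Nat.pow_le_pow_left hqx e)
    have h5 : 2 ^ i ≤ Nat.log 2 (x ^ e) := (Nat.le_log_iff_pow_le (by norm_num) (by omega)).2 h4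
    have h6 : i ≤ n := by
      rw [hn]
      exact (Nat.le_log_iff_pow_le (by norm_num) (by omega)).2 h5
    omega
  have h1 : ((((Icc 1 x).filter (fun q => ∃ i, q ∈ T i)).card : ℕ) : ℝ) ≤ ∑ i ∈ range (n + 1), ((T i).card : ℝ) := by
    exact_mod_cast (card_le_card hsub).trans card_biUnion_le
  have h2 : ∑ i ∈ range (n + 1), ((T i).card : ℝ) ≤ ∑ i ∈ range (n + 1), C * Real.log 2 ^ 2 * 4 ^ i := by
    apply sum_le_sum
    intro i _
    refine (hc i).trans ?_
    push_cast
    rw [Real.log_pow]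
    push_cast
    apply le_of_eq
    rw [show (4 : ℝ) = 2 ^ 2 by norm_num, ← pow_mul]
    ring
  rw [← mul_sum] at h2
  have h3 : ∑ i ∈ range (n + 1), (4 : ℝ) ^ i ≤ 4 ^ (n + 1) / 3 := by
    rw [geom_sum_eq (by norm_num)]
    have : (0 : ℝ) < 4 ^ (n + 1) := by positivity
    rw [show (4 : ℝ) - 1 = 3 by norm_num]
    apply div_le_div_of_nonneg_right _ (by norm_num)
    linarith
  have hl2 : 0 < Real.log 2 := Real.log_pos (by norm_num)
  have h4 : (2 : ℝ) ^ n ≤ (Nat.log 2 (x ^ e) : ℕ) := by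
    have : 2 ^ n ≤ Nat.log 2 (x ^ e) := Nat.pow_log_le_self 2 (by omega)
    exact_mod_cast this
  have h5 : ((Nat.log 2 (x ^ e) : ℕ) : ℝ) * Real.log 2 ≤ e * Real.log x := by
    have h6 : (2 : ℝ) ^ (Nat.log 2 (x ^ e)) ≤ (x : ℝ) ^ e := by
      have := Nat.pow_log_le_self 2 (show x ^ e ≠ 0 by positivity)
      exact_mod_cast this
    have h7 := Real.log_le_log (by positivity) h6
    rw [Real.log_pow, Real.log_pow] at h7
    exact h7
  have h6 : (2 : ℝ) ^ n * Real.log 2 ≤ e * Real.log x := (mul_le_mul_of_nonneg_right h4 hl2.le).trans h5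
  have h7 : ((2 : ℝ) ^ n * Real.log 2) ^ 2 ≤ (e * Real.log x) ^ 2 := pow_le_pow_left₀ (by positivity) h6 2
  calc _ ≤ C * Real.log 2 ^ 2 * ∑ i ∈ range (n + 1), (4 : ℝ) ^ i := h1.trans h2
    _ ≤ C * Real.log 2 ^ 2 * (4 ^ (n + 1) / 3) := mul_le_mul_of_nonneg_left h3 (by positivity)
    _ = 4 / 3 * C * ((2 : ℝ) ^ n * Real.log 2) ^ 2 := by
        rw [show (4 : ℝ) = 2 ^ 2 by norm_num, ← pow_mul]
        ring
    _ ≤ 4 / 3 * C * (e * Real.log x) ^ 2 := mul_le_mul_of_nonneg_left h7 (by positivity)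
    _ ≤ 2 * C * (e * Real.log x) ^ 2 := by
        apply mul_le_mul_of_nonneg_right _ (by positivity)
        linarith
    _ = 2 * C * e ^ 2 * Real.log x ^ 2 := by rw [mul_pow]; ring

/-- the sum of the reciprocals of the primes between `Y ^ (1/24)` and `Y` is bounded -/
theorem mert3 : ∃ M : ℝ, 0 < M ∧ ∃ Y₀ : ℕ, ∀ Y : ℕ, Y₀ ≤ Y →
    ∑ q ∈ pr Y (1 / 24) 1, (1 : ℝ) / q ≤ M := by
  obtain ⟨N0, H⟩ := Pool.Agent.W378.DC.MP (1 / 24) 1 (by norm_num) (by norm_num)
  refine ⟨Real.log 24 + 1, by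
    have : 0 < Real.log 24 := Real.log_pos (by norm_num)
    linarith, N0, fun Y hY => ?_⟩
  have h1 := (abs_le.1 (H Y hY (1 / 24) 1 le_rfl (by norm_num) le_rfl)).2
  rw [show (1 : ℝ) / (1 / 24) = 24 by norm_num] at h1
  refine le_trans (sum_le_sum fun p hp => ?_) (by linarith : ∑ p ∈ pr Y (1 / 24) 1, 1 / ((p : ℝ) - 1) ≤ _)
  unfold pr at hp
  rw [mem_filter] at hp
  have h2 : (2 : ℝ) ≤ p := by exact_mod_cast hp.2.1.two_le
  apply one_div_le_one_div_of_le <;> linarith

/-- the windows without primes among the almost primes -/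
def NP (Y : ℕ) (a : ℕ × ℕ) : Prop := Y ≤ a.1 ∧ Nat.sqrt a.1 ≤ a.2 + 1 ∧
      a.2 ≤ a.1 ∧ ∀ n ∈ G3 (a.1 + a.2) (39 / 400) a.1 a.2, ¬ n.Prime

open Classical in
/-- the windows -/
noncomputable def NPs (Y : ℕ) : Finset (ℕ × ℕ) := ((range (Y ^ 2)) ×ˢ (range (Y ^ 2))).filter (NP Y)

/-- **The thin set.** -/
theorem thin3 : ∃ C : ℝ, 0 < C ∧ ∃ Q : Set ℕ, (∀ q ∈ Q, q.Prime) ∧
    (∀ x : ℕ, 2 ≤ x → ∃ S : Finset ℕ, (∀ q ∈ Q, q ≤ x → q ∈ S) ∧ (S.card : ℝ) ≤ C * Real.log x ^ 2) ∧
    ∃ X₀ : ℕ, ∀ X : ℕ, X₀ ≤ X → ∀ A H : ℕ, A + H = X → Nat.sqrt A ≤ H + 1 → H ≤ A →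
      ∃ n ∈ G3 X (39 / 400) A H, n.Prime ∨ ∃ q ∈ Q, ∃ m : ℕ, n = q * m ∧ q ≤ m ∧ m.primeFactorsList.length ≤ 2 := by
  classical
  obtain ⟨δ, hδ, X₁, hp3⟩ := p3
  obtain ⟨M, hM, Y₂, hmert⟩ := mert3
  set C' : ℝ := 20 * (36 * M / δ + 2) with hC'
  have hC'0 : 0 < C' := by positivity
  obtain ⟨Z₀, hZ₀⟩ : ∃ Z₀ : ℕ, Z₀ = max (max X₁ Y₂) (2 ^ 100) := ⟨_, rfl⟩
  have hstep : ∀ i : ℕ, ∃ T : Finset ℕ, (∀ q ∈ T, q.Prime ∧ 2 ^ 2 ^ i < q ^ 13) ∧
      ((T.card : ℝ) ≤ C' * Real.log ((2 ^ 2 ^ i : ℕ) : ℝ) ^ 2) ∧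
      (Z₀ ≤ 2 ^ 2 ^ i → ∀ A H : ℕ, 2 ^ 2 ^ i ≤ A → A < (2 ^ 2 ^ i) ^ 2 → Nat.sqrt A ≤ H + 1 → H ≤ A →
        ∃ n ∈ G3 (A + H) (39 / 400) A H, n.Prime ∨ ∃ q ∈ T, ∃ m : ℕ, n = q * m ∧ q ≤ m ∧ m.primeFactorsList.length ≤ 2) := by
    intro i
    by_cases hi : Z₀ ≤ 2 ^ 2 ^ i
    swap
    · refine ⟨∅, by simp, ?_, fun h => absurd h hi⟩
      simp only [card_empty, Nat.cast_zero]
      positivity
    set Y : ℕ := 2 ^ 2 ^ i with hY
    have hZ1 : X₁ ≤ Y := ((le_max_left _ _).trans (le_max_left _ _)).trans (hZ₀ ▸ hi)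
    have hZ2 : Y₂ ≤ Y := ((le_max_right _ _).trans (le_max_left _ _)).trans (hZ₀ ▸ hi)
    have hZ3 : 2 ^ 100 ≤ Y := (le_max_right _ _).trans (hZ₀ ▸ hi)
    have hYr : (2 : ℝ) ^ 100 ≤ Y := by exact_mod_cast hZ3
    have hY0 : (0 : ℝ) < Y := lt_of_lt_of_le (by positivity) hYr
    have hY1 : (1 : ℝ) ≤ Y := le_trans (one_le_pow₀ (by norm_num)) hYr
    have hlY : 2 ≤ Real.log Y := by
      have h1 := Real.log_le_log (by positivity) hYr
      rw [Real.log_pow] at h1
      have := Real.log_two_gt_d9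
      push_cast at h1
      linarith
    have hlY0 : 0 < Real.log Y := by linarith
    -- the sets of the smallest prime factors
    set Ω : Finset ℕ := pr (Y ^ 2) (1 / 24) 1 with hΩ
    set I : Finset (ℕ × ℕ) := NPs Y with hI
    set B : ℕ × ℕ → Finset ℕ := fun a => (G3 (a.1 + a.2) (39 / 400) a.1 a.2).image Nat.minFac with hB
    have hkey : ∀ a ∈ I, B a ⊆ Ω ∧ (δ / (36 * M * Real.log Y)) * M ≤ ∑ q ∈ B a, (1 : ℝ) / q := by
      rintro ⟨A, H⟩ ha
      rw [hI] at ha
      unfold NPs at ha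
      rw [mem_filter, mem_product, mem_range, mem_range] at ha
      unfold NP at ha
      simp only at ha
      obtain ⟨⟨hA1, hH1⟩, hA2, hsq, hHA, hnp⟩ := ha
      set X : ℕ := A + H with hX
      have hXX : (X : ℝ) ≤ (Y : ℝ) ^ 2 * 2 := by
        have : X ≤ Y ^ 2 * 2 := by omega
        exact_mod_cast this
      have hX1 : X₁ ≤ X := by omega
      have hXY : (Y : ℝ) ≤ X := by exact_mod_cast (by omega : Y ≤ X)
      have hX0 : (0 : ℝ) < X := by linarith
      have hX1' : (1 : ℝ) ≤ X := by linarith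
      -- sizes
      have hsA : A < (Nat.sqrt A + 1) ^ 2 := Nat.lt_succ_sqrt' A
      have hAH : (X : ℝ) ≤ 16 * (H : ℝ) ^ 2 := by
        have h1 : 2 ^ 50 ≤ Nat.sqrt A := by
          rw [Nat.le_sqrt']
          calc (2 ^ 50) ^ 2 = 2 ^ 100 := by norm_num
            _ ≤ A := by omega
        have h2 : Nat.sqrt A + 1 ≤ H + 2 := by omega
        have h3 : A < (H + 2) ^ 2 := lt_of_lt_of_le hsA (Nat.pow_le_pow_left h2 2)
        have h4 : 2 ≤ H := by omega
        have h5 : X ≤ 2 * A := by omega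
        have h6 : X ≤ 16 * H ^ 2 := by nlinarith
        exact_mod_cast h6
      have hsqX : Real.sqrt X ≤ 4 * H := by
        rw [show (4 : ℝ) * H = Real.sqrt ((4 * H) ^ 2) by rw [Real.sqrt_sq (by positivity)]]
        apply Real.sqrt_le_sqrt
        linarith
      have hH25 : (X : ℝ) ^ (2 / 5 : ℝ) ≤ H := by
        have h1 : (X : ℝ) ^ (1 / 2 : ℝ) ≤ 4 * H := by rwa [← Real.sqrt_eq_rpow]
        have h2 : (4 : ℝ) ≤ (X : ℝ) ^ (1 / 10 : ℝ) := by
          have h3 : ((2 : ℝ) ^ 100) ^ (1 / 10 : ℝ) ≤ (X : ℝ) ^ (1 / 10 : ℝ) :=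
            Real.rpow_le_rpow (by positivity) (hYr.trans hXY) (by norm_num)
          rw [← Real.rpow_natCast, ← Real.rpow_mul (by norm_num)] at h3
          norm_num at h3
          linarith
        have h3 : (X : ℝ) ^ (1 / 2 : ℝ) = (X : ℝ) ^ (2 / 5 : ℝ) * (X : ℝ) ^ (1 / 10 : ℝ) := by
          rw [← Real.rpow_add hX0]
          norm_num
        have h4 : 0 < (X : ℝ) ^ (2 / 5 : ℝ) := by positivity
        nlinarith
      have hG := hp3 X hX1 A H le_rfl hH25
      -- the members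
      have hmem : ∀ n ∈ G3 X (39 / 400) A H, (A < n ∧ n ≤ X) ∧ n.primeFactorsList.length ≤ 3 ∧
          ∀ q : ℕ, q.Prime → q ∣ n → (X : ℝ) ^ (39 / 400 : ℝ) ≤ q := by
        intro n hn
        unfold G3 at hn
        rw [mem_filter, mem_Ioc] at hn
        exact hn
      have hmin : ∀ n ∈ G3 X (39 / 400) A H, n.minFac.Prime ∧ n.minFac ^ 2 ≤ n := by
        intro n hn
        have h1 := hmem n hn
        have h2 : 2 ≤ n := by omega
        refine ⟨Nat.minFac_prime (by omega), Nat.minFac_sq_le_self (by omega) (hnp n hn)⟩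
      have hBΩ : ∀ q ∈ B (A, H), q.Prime ∧ (X : ℝ) ^ (39 / 400 : ℝ) ≤ q ∧ (q : ℝ) ≤ Real.sqrt X := by
        intro q hq
        rw [hB] at hq
        simp only [mem_image] at hq
        obtain ⟨n, hn, rfl⟩ := hq
        obtain ⟨h1, h2⟩ := hmin n hn
        obtain ⟨h3, _, h4⟩ := hmem n hn
        refine ⟨h1, h4 _ h1 (Nat.minFac_dvd n), ?_⟩
        apply Real.le_sqrt_of_sq_le
        have : n.minFac ^ 2 ≤ X := h2.trans h3.2
        exact_mod_cast this
      constructor
      · intro q hq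
        obtain ⟨q1, q2, q3⟩ := hBΩ q hq
        have hq0 : (0 : ℝ) < q := by exact_mod_cast q1.pos
        have hlY2 : Real.log ((Y ^ 2 : ℕ) : ℝ) = 2 * Real.log Y := by
          push_cast
          rw [Real.log_pow]
          norm_num
        have hqX : Real.log q ≤ Real.log X / 2 := by
          have h1 := Real.log_le_log hq0 q3
          rwa [Real.log_sqrt hX0.le] at h1
        have hlX : Real.log X ≤ 3 * Real.log Y := by
          have h1 := Real.log_le_log hX0 hXX
          rw [Real.log_mul (by positivity) (by norm_num), Real.log_pow] at h1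
          have := Real.log_two_lt_d9
          push_cast at h1
          linarith
        rw [hΩ]
        unfold pr
        rw [mem_filter, mem_Icc]
        refine ⟨⟨q1.one_le, ?_⟩, q1, ?_, ?_⟩
        · have h1 : (q : ℝ) ≤ (Y : ℝ) ^ 2 := by
            rw [← Real.log_le_log_iff hq0 (by positivity), Real.log_pow]
            push_cast
            linarith
          exact_mod_cast h1
        · unfold tt
          rw [hlY2, le_div_iff₀ (by positivity)]
          have h1 := Real.log_le_log (by positivity) q2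
          rw [Real.log_rpow hX0] at h1
          have h2 := Real.log_le_log hY0 hXY
          linarith
        · unfold tt
          rw [hlY2, div_lt_one (by positivity)]
          linarith
      · -- the lower bound
        have hcov : G3 X (39 / 400) A H ⊆ (B (A, H)).biUnion (fun q => (Ioc A (A + H)).filter (fun j => q ∣ j)) := by
          intro n hn
          rw [mem_biUnion]
          refine ⟨n.minFac, ?_, ?_⟩
          · rw [hB]
            exact mem_image_of_mem _ hn
          · rw [mem_filter, mem_Ioc]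
            exact ⟨(hmem n hn).1, Nat.minFac_dvd n⟩
        have h1 : ((G3 X (39 / 400) A H).card : ℝ) ≤ ∑ q ∈ B (A, H), ((H : ℝ) / q + 1) := by
          calc ((G3 X (39 / 400) A H).card : ℝ) ≤
                ∑ q ∈ B (A, H), ((((Ioc A (A + H)).filter (fun j => q ∣ j)).card : ℕ) : ℝ) := by
                exact_mod_cast (card_le_card hcov).trans card_biUnion_le
            _ ≤ _ := by
                apply sum_le_sum
                intro q hq
                have := (abs_le.1 (card_mult A H q (hBΩ q hq).1.pos)).2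
                linarith
        have h2 : ∑ q ∈ B (A, H), ((H : ℝ) / q + 1) ≤ ∑ q ∈ B (A, H), 5 * H * (1 / (q : ℝ)) := by
          apply sum_le_sum
          intro q hq
          obtain ⟨q1, q2, q3⟩ := hBΩ q hq
          have hq0 : (0 : ℝ) < q := by exact_mod_cast q1.pos
          rw [mul_one_div, div_add_one hq0.ne']
          apply div_le_div_of_nonneg_right _ hq0.le
          linarith
        rw [← mul_sum] at h2
        have hlX : Real.log X ≤ 3 * Real.log Y := by
          have h1 := Real.log_le_log hX0 hXX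
          rw [Real.log_mul (by positivity) (by norm_num), Real.log_pow] at h1
          have := Real.log_two_lt_d9
          push_cast at h1
          linarith
        have hlX0 : 0 < Real.log X := lt_of_lt_of_le hlY0 (Real.log_le_log hY0 hXY)
        have hH0 : (0 : ℝ) < H := lt_of_lt_of_le (by positivity) hH25
        have h3 : δ * (H / Real.log X) ≤ 5 * H * ∑ q ∈ B (A, H), (1 : ℝ) / q := hG.trans (h1.trans h2)
        have h4 : δ / (3 * Real.log Y) ≤ δ / Real.log X := div_le_div_of_nonneg_left hδ.le hlX0 hlX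
        have h5 : δ / Real.log X ≤ 5 * ∑ q ∈ B (A, H), (1 : ℝ) / q := by
          have h6 : δ * (H / Real.log X) = H * (δ / Real.log X) := by ring
          rw [h6] at h3
          have h7 : 5 * H * ∑ q ∈ B (A, H), (1 : ℝ) / q = H * (5 * ∑ q ∈ B (A, H), (1 : ℝ) / q) := by ring
          rw [h7] at h3
          exact le_of_mul_le_mul_left h3 hH0
        have h6 : δ / (36 * M * Real.log Y) * M = δ / (3 * Real.log Y) / 12 := by
          field_simp
          norm_num
        rw [h6]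
        have h7 : 0 ≤ ∑ q ∈ B (A, H), (1 : ℝ) / q := sum_nonneg fun q _ => by positivity
        linarith [h4.trans h5]
    obtain ⟨T, hT1, hT2, hT3⟩ := hit2 Ω (fun q => (1 : ℝ) / q) (fun q _ => by positivity) M
      (δ / (36 * M * Real.log Y)) hM (by
        rw [hΩ]
        exact hmert (Y ^ 2) (hZ2.trans (Nat.le_self_pow (by norm_num) Y))) (by positivity) B I ((Y : ℝ) ^ 4) (by
        calc (2 : ℝ) ≤ 2 ^ 100 := by norm_num
          _ ≤ Y := hYr
          _ = (Y : ℝ) ^ 1 := (pow_one _).symm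
          _ ≤ _ := pow_le_pow_right₀ hY1 (by norm_num)) (by
        have h1 : I.card ≤ Y ^ 4 := by
          rw [hI]
          unfold NPs
          refine (card_filter_le _ _).trans ?_
          rw [card_product, card_range]
          apply le_of_eq
          ring
        exact_mod_cast h1) hkey
    refine ⟨T, ?_, ?_, ?_⟩
    · intro q hq
      have h1 := hT1 hq
      rw [hΩ] at h1
      unfold pr at h1
      rw [mem_filter, mem_Icc] at h1
      refine ⟨h1.2.1, ?_⟩
      have h2 := h1.2.2.1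
      have hq0 : (0 : ℝ) < q := by exact_mod_cast h1.2.1.pos
      unfold tt at h2
      have hlY2 : Real.log ((Y ^ 2 : ℕ) : ℝ) = 2 * Real.log Y := by
        push_cast
        rw [Real.log_pow]
        norm_num
      rw [hlY2, le_div_iff₀ (by positivity)] at h2
      have h3 : (Y : ℝ) ≤ (q : ℝ) ^ 12 := by
        rw [← Real.log_le_log_iff hY0 (by positivity), Real.log_pow]
        push_cast
        linarith
      have h4 : Y ≤ q ^ 12 := by exact_mod_cast h3
      exact lt_of_le_of_lt h4 (Nat.pow_lt_pow_right h1.2.1.one_lt (by norm_num))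
    · refine hT2.trans ?_
      have e1 : 1 / (δ / (36 * M * Real.log Y)) = 36 * M / δ * Real.log Y := by
        field_simp
      rw [e1, Real.log_pow]
      push_cast
      have e2 : 36 * M / δ * Real.log Y + 2 ≤ (36 * M / δ + 2) * Real.log Y := by
        have : 2 ≤ 2 * Real.log Y := by linarith
        linarith
      calc (36 * M / δ * Real.log Y + 2) * (4 * Real.log Y) ≤ ((36 * M / δ + 2) * Real.log Y) * (4 * Real.log Y) :=
            mul_le_mul_of_nonneg_right e2 (by positivity)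
        _ = 4 * (36 * M / δ + 2) * Real.log Y ^ 2 := by ring
        _ ≤ 20 * (36 * M / δ + 2) * Real.log Y ^ 2 := by
            apply mul_le_mul_of_nonneg_right _ (by positivity)
            have : 0 < 36 * M / δ + 2 := by positivity
            linarith
    · intro _ A H hA1 hA2 hsq hHA
      by_cases hpr : ∃ n ∈ G3 (A + H) (39 / 400) A H, n.Prime
      · obtain ⟨n, hn, hnp⟩ := hpr
        exact ⟨n, hn, Or.inl hnp⟩
      · push Not at hpr
        obtain ⟨q, hq1, hq2⟩ := hT3 (A, H) (by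
          rw [hI]
          unfold NPs
          rw [mem_filter, mem_product, mem_range, mem_range]
          unfold NP
          exact ⟨⟨hA2, lt_of_le_of_lt hHA hA2⟩, hA1, hsq, hHA, hpr⟩)
        rw [hB] at hq2
        simp only [mem_image] at hq2
        obtain ⟨n, hn, hnq⟩ := hq2
        unfold G3 at hn
        rw [mem_filter, mem_Ioc] at hn
        obtain ⟨⟨a1, a2⟩, a3, a4⟩ := hn
        have hn' : n ∈ G3 (A + H) (39 / 400) A H := by
          unfold G3
          rw [mem_filter, mem_Ioc]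
          exact ⟨⟨a1, a2⟩, a3, a4⟩
        have hn2 : 2 ≤ n := by omega
        have hqp : q.Prime := by
          rw [← hnq]
          exact Nat.minFac_prime (by omega)
        have hqn : q ∣ n := by
          rw [← hnq]
          exact Nat.minFac_dvd n
        have hq2n : q ^ 2 ≤ n := by
          rw [← hnq]
          exact Nat.minFac_sq_le_self (by omega) (hpr n hn')
        obtain ⟨m, hm⟩ := hqn
        have hqm : q ≤ m := by
          rw [hm, pow_two] at hq2n
          exact Nat.le_of_mul_le_mul_left hq2n hqp.pos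
        have hm0 : m ≠ 0 := by
          have := hqp.pos
          omega
        refine ⟨n, hn', Or.inr ⟨q, hq1, m, hm, hqm, ?_⟩⟩
        have h1 := (Nat.perm_primeFactorsList_mul hqp.ne_zero hm0).length_eq
        rw [← hm, List.length_append, Nat.primeFactorsList_prime hqp, List.length_singleton] at h1
        omega
  choose T hT1 hT2 hT3 using hstep
  refine ⟨2 * C' * 13 ^ 2, by positivity, {q | ∃ i, q ∈ T i}, ?_, ?_, 2 * Z₀ ^ 2, ?_⟩
  · rintro q ⟨i, hi⟩
    exact (hT1 i q hi).1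
  · intro x hx
    refine ⟨(Icc 1 x).filter (fun q => ∃ i, q ∈ T i), ?_, ?_⟩
    · rintro q ⟨i, hi⟩ hqx
      rw [mem_filter, mem_Icc]
      exact ⟨⟨(hT1 i q hi).1.one_le, hqx⟩, i, hi⟩
    · exact_mod_cast thin_union2 T C' hC'0 13 (by norm_num) hT1 hT2 x hx
  · intro X hX A H hAH hsq hHA
    have hA0 : Z₀ ^ 2 ≤ A := by omega
    have hZ2 : 2 ≤ Z₀ := by
      have : 2 ^ 100 ≤ Z₀ := by rw [hZ₀]; exact le_max_right _ _
      omega
    have hA2 : 2 ≤ A := by nlinarith
    obtain ⟨i, hi1, hi2⟩ := tower hA2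
    have hi3 : Z₀ ≤ 2 ^ 2 ^ i := by
      by_contra hcon
      push Not at hcon
      have : (2 ^ 2 ^ i) ^ 2 ≤ Z₀ ^ 2 := Nat.pow_le_pow_left hcon.le 2
      omega
    obtain ⟨n, hn, h⟩ := hT3 i hi3 A H hi1 hi2 hsq hHA
    rw [hAH] at hn
    refine ⟨n, hn, ?_⟩
    rcases h with h | ⟨q, hq, m, hm⟩
    · exact Or.inl h
    · exact Or.inr ⟨q, ⟨i, hq⟩, m, hm⟩

end Pool.Agent.Q253.P3
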