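import Pool.Agent.Q253.P3.Thin
import Pool.Agent.Q253.P3.Lin

/-!
# A thin set of primes for the almost primes in all arithmetic progressions
-/

set_option autoImplicit false

namespace Pool.Agent.Q253.P3

open Finset Filter
open Pool.Agent.W23.DC (pr tt Mer)
open Pool.Agent.Y882 (PZ tt_lt prod_inj)
open Pool.Agent.Q253.Thin (tower hit2)

/-- the progressions without primes among the almost primes: `a = (m, a, H)` -/
def NPL (Y : ℕ) (a : ℕ × ℕ × ℕ) : Prop := Y ≤ a.1 * a.2.2 + a.2.1 ∧ a.1 * a.2.2 + a.2.1 < Y ^ 2 ∧ 1 ≤ a.1 ∧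
  Nat.Coprime a.2.1 a.1 ∧ a.1 ≤ 3 * a.2.2 ∧ 1 ≤ a.2.1 ∧ a.2.1 ≤ a.1 ∧
      ∀ n ∈ G3L (a.1 * a.2.2 + a.2.1) (39 / 400) a.1 a.2.1 0 a.2.2, ¬ (a.1 * n + a.2.1).Prime

open Classical in
/-- the progressions -/
noncomputable def NPLs (Y : ℕ) : Finset (ℕ × ℕ × ℕ) :=
  ((range (Y ^ 2)) ×ˢ (range (Y ^ 2)) ×ˢ (range (Y ^ 2))).filter (NPL Y)

/-- **The thin set for progressions.** -/
theorem thinL : ∃ C : ℝ, 0 < C ∧ ∃ Q : Set ℕ, (∀ q ∈ Q, q.Prime) ∧
    (∀ x : ℕ, 2 ≤ x → ∃ S : Finset ℕ, (∀ q ∈ Q, q ≤ x → q ∈ S) ∧ (S.card : ℝ) ≤ C * Real.log x ^ 2) ∧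
    ∃ X₀ : ℕ, ∀ m a H : ℕ, X₀ ≤ m * H + a → 1 ≤ m → Nat.Coprime a m → m ≤ 3 * H → 1 ≤ a → a ≤ m →
      ∃ j ∈ G3L (m * H + a) (39 / 400) m a 0 H, (m * j + a).Prime ∨
        ∃ q ∈ Q, ∃ l : ℕ, m * j + a = q * l ∧ q ≤ l ∧ l.primeFactorsList.length ≤ 2 := by
  classical
  obtain ⟨δ, hδ, X₁, hp3⟩ := p3lin
  obtain ⟨M, hM, Y₂, hmert⟩ := mert3
  set C' : ℝ := 20 * (36 * M / δ + 2) with hC'
  have hC'0 : 0 < C' := by positivity
  obtain ⟨Z₀, hZ₀⟩ : ∃ Z₀ : ℕ, Z₀ = max (max X₁ Y₂) (2 ^ 100) := ⟨_, rfl⟩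
  have hstep : ∀ i : ℕ, ∃ T : Finset ℕ, (∀ q ∈ T, q.Prime ∧ 2 ^ 2 ^ i < q ^ 13) ∧
      ((T.card : ℝ) ≤ C' * Real.log ((2 ^ 2 ^ i : ℕ) : ℝ) ^ 2) ∧
      (Z₀ ≤ 2 ^ 2 ^ i → ∀ m a H : ℕ, 2 ^ 2 ^ i ≤ m * H + a → m * H + a < (2 ^ 2 ^ i) ^ 2 → 1 ≤ m → Nat.Coprime a m →
        m ≤ 3 * H → 1 ≤ a → a ≤ m →
        ∃ j ∈ G3L (m * H + a) (39 / 400) m a 0 H, (m * j + a).Prime ∨
          ∃ q ∈ T, ∃ l : ℕ, m * j + a = q * l ∧ q ≤ l ∧ l.primeFactorsList.length ≤ 2) := by
    intro i
    by_cases hi : Z₀ ≤ 2 ^ 2 ^ i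
    swap
    · refine ⟨∅, by simp, ?_, fun h => absurd h hi⟩
      simp only [card_empty, Nat.cast_zero]
      positivity
    set Y : ℕ := 2 ^ 2 ^ i with hY
    have hZ1 : X₁ ≤ Y := ((le_max_left _ _).trans (le_max_left _ _)).trans (hZ₀ ▸ hi)
    have hZ2 : Y₂ ≤ Y := ((le_max_right _ _).trans (le_max_left _ _)).trans (hZ₀ ▸ hi)
    have hZ3 : 2 ^ 100 ≤ Y := (le_max_right _ _).trans (hZ₀ ▸ hi)
    have hYr : (2 : ℝ) ^ 100 ≤ Y := by exact_mod_cast hZ3
    have hY0 : (0 : ℝ) < Y := lt_of_lt_of_le (by positivity) hYr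
    have hY1 : (1 : ℝ) ≤ Y := le_trans (one_le_pow₀ (by norm_num)) hYr
    have hlY : 2 ≤ Real.log Y := by
      have h1 := Real.log_le_log (by positivity) hYr
      rw [Real.log_pow] at h1
      have := Real.log_two_gt_d9
      push_cast at h1
      linarith
    have hlY0 : 0 < Real.log Y := by linarith
    -- the sets of the smallest prime factors
    set Ω : Finset ℕ := pr (Y ^ 2) (1 / 24) 1 with hΩ
    set I : Finset (ℕ × ℕ × ℕ) := NPLs Y with hI
    set B : ℕ × ℕ × ℕ → Finset ℕ := fun a =>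
      (G3L (a.1 * a.2.2 + a.2.1) (39 / 400) a.1 a.2.1 0 a.2.2).image (fun n => (a.1 * n + a.2.1).minFac) with hB
    have hkey : ∀ a ∈ I, B a ⊆ Ω ∧ (δ / (36 * M * Real.log Y)) * M ≤ ∑ q ∈ B a, (1 : ℝ) / q := by
      rintro ⟨m, a, H⟩ ha
      rw [hI] at ha
      unfold NPLs at ha
      rw [mem_filter, mem_product, mem_product, mem_range, mem_range, mem_range] at ha
      unfold NPL at ha
      simp only at ha
      obtain ⟨⟨hm1, ha1, hH1⟩, hX1a, hX2a, hm, ham, hmH, ha0, haa, hnp⟩ := ha
      set X : ℕ := m * H + a with hX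
      have hXX : (X : ℝ) ≤ (Y : ℝ) ^ 2 * 2 := by
        have : X ≤ Y ^ 2 * 2 := by omega
        exact_mod_cast this
      have hX1 : X₁ ≤ X := by omega
      have hXY : (Y : ℝ) ≤ X := by exact_mod_cast hX1a
      have hX0 : (0 : ℝ) < X := by linarith
      have hX1' : (1 : ℝ) ≤ X := by linarith
      -- sizes
      have hAH : (X : ℝ) ≤ 16 * (H : ℝ) ^ 2 := by
        have h1 : X ≤ 3 * H * H + 3 * H := by
          have h2 : m * H ≤ 3 * H * H := Nat.mul_le_mul_right H hmH
          omega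
        have h2 : 1 ≤ H := by
          by_contra h0
          have : H = 0 := by omega
          rw [this] at h1
          omega
        have h6 : X ≤ 16 * H ^ 2 := by nlinarith
        exact_mod_cast h6
      have hsqX : Real.sqrt X ≤ 4 * H := by
        rw [show (4 : ℝ) * H = Real.sqrt ((4 * H) ^ 2) by rw [Real.sqrt_sq (by positivity)]]
        apply Real.sqrt_le_sqrt
        linarith
      have hH25 : (X : ℝ) ^ (2 / 5 : ℝ) ≤ H := by
        have h1 : (X : ℝ) ^ (1 / 2 : ℝ) ≤ 4 * H := by rwa [← Real.sqrt_eq_rpow]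
        have h2 : (4 : ℝ) ≤ (X : ℝ) ^ (1 / 10 : ℝ) := by
          have h3 : ((2 : ℝ) ^ 100) ^ (1 / 10 : ℝ) ≤ (X : ℝ) ^ (1 / 10 : ℝ) :=
            Real.rpow_le_rpow (by positivity) (hYr.trans hXY) (by norm_num)
          rw [← Real.rpow_natCast, ← Real.rpow_mul (by norm_num)] at h3
          norm_num at h3
          linarith
        have h3 : (X : ℝ) ^ (1 / 2 : ℝ) = (X : ℝ) ^ (2 / 5 : ℝ) * (X : ℝ) ^ (1 / 10 : ℝ) := by
          rw [← Real.rpow_add hX0]
          norm_num
        have h4 : 0 < (X : ℝ) ^ (2 / 5 : ℝ) := by positivity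
        nlinarith
      have hG := hp3 X hX1 m a 0 H hm ham (by rw [Nat.zero_add]) hH25
      -- the members
      have hmem : ∀ n ∈ G3L X (39 / 400) m a 0 H, (0 < n ∧ n ≤ 0 + H) ∧ (m * n + a).primeFactorsList.length ≤ 3 ∧
          ∀ q : ℕ, q.Prime → q ∣ m * n + a → (X : ℝ) ^ (39 / 400 : ℝ) ≤ q := by
        intro n hn
        unfold G3L at hn
        rw [mem_filter, mem_Ioc] at hn
        exact hn
      have hle : ∀ n : ℕ, n ≤ 0 + H → m * n + a ≤ X := by
        intro n hn
        have : m * n ≤ m * H := Nat.mul_le_mul_left m (by omega)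
        omega
      have hge : ∀ n : ℕ, 0 < n → 2 ≤ m * n + a := by
        intro n hn
        have h1 : 1 ≤ m * n := Nat.mul_pos hm hn
        omega
      have hmin : ∀ n ∈ G3L X (39 / 400) m a 0 H, (m * n + a).minFac.Prime ∧ (m * n + a).minFac ^ 2 ≤ m * n + a := by
        intro n hn
        have h1 := hmem n hn
        have h2 := hge n h1.1.1
        refine ⟨Nat.minFac_prime (by omega), Nat.minFac_sq_le_self (by omega) (hnp n hn)⟩
      have hBΩ : ∀ q ∈ B (m, a, H), q.Prime ∧ (X : ℝ) ^ (39 / 400 : ℝ) ≤ q ∧ (q : ℝ) ≤ Real.sqrt X := by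
        intro q hq
        rw [hB] at hq
        simp only [mem_image] at hq
        obtain ⟨n, hn, rfl⟩ := hq
        obtain ⟨h1, h2⟩ := hmin n hn
        obtain ⟨h3, _, h4⟩ := hmem n hn
        refine ⟨h1, h4 _ h1 (Nat.minFac_dvd _), ?_⟩
        apply Real.le_sqrt_of_sq_le
        have : (m * n + a).minFac ^ 2 ≤ X := h2.trans (hle n h3.2)
        exact_mod_cast this
      constructor
      · intro q hq
        obtain ⟨q1, q2, q3⟩ := hBΩ q hq
        have hq0 : (0 : ℝ) < q := by exact_mod_cast q1.pos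
        have hlY2 : Real.log ((Y ^ 2 : ℕ) : ℝ) = 2 * Real.log Y := by
          push_cast
          rw [Real.log_pow]
          norm_num
        have hqX : Real.log q ≤ Real.log X / 2 := by
          have h1 := Real.log_le_log hq0 q3
          rwa [Real.log_sqrt hX0.le] at h1
        have hlX : Real.log X ≤ 3 * Real.log Y := by
          have h1 := Real.log_le_log hX0 hXX
          rw [Real.log_mul (by positivity) (by norm_num), Real.log_pow] at h1
          have := Real.log_two_lt_d9
          push_cast at h1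
          linarith
        rw [hΩ]
        unfold pr
        rw [mem_filter, mem_Icc]
        refine ⟨⟨q1.one_le, ?_⟩, q1, ?_, ?_⟩
        · have h1 : (q : ℝ) ≤ (Y : ℝ) ^ 2 := by
            rw [← Real.log_le_log_iff hq0 (by positivity), Real.log_pow]
            push_cast
            linarith
          exact_mod_cast h1
        · unfold tt
          rw [hlY2, le_div_iff₀ (by positivity)]
          have h1 := Real.log_le_log (by positivity) q2
          rw [Real.log_rpow hX0] at h1
          have h2 := Real.log_le_log hY0 hXY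
          linarith
        · unfold tt
          rw [hlY2, div_lt_one (by positivity)]
          linarith
      · -- the lower bound
        have hcopq : ∀ q ∈ B (m, a, H), Nat.Coprime m q := by
          intro q hq
          rw [hB] at hq
          simp only [mem_image] at hq
          obtain ⟨n, hn, rfl⟩ := hq
          have h1 := (hmin n hn).1
          rw [Nat.coprime_comm]
          refine (Nat.Prime.coprime_iff_not_dvd h1).2 fun hqm => ?_
          have h3 : (m * n + a).minFac ∣ m * n + a := Nat.minFac_dvd _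
          have h4 : (m * n + a).minFac ∣ a := (Nat.dvd_add_right (hqm.mul_right n)).1 h3
          exact h1.one_lt.ne' (Nat.dvd_one.1 (ham ▸ Nat.dvd_gcd h4 hqm))
        have hcov : G3L X (39 / 400) m a 0 H ⊆ (B (m, a, H)).biUnion (fun q => (Ioc 0 (0 + H)).filter (fun j => q ∣ m * j + a)) := by
          intro n hn
          rw [mem_biUnion]
          refine ⟨(m * n + a).minFac, ?_, ?_⟩
          · rw [hB]
            exact mem_image_of_mem _ hn
          · rw [mem_filter, mem_Ioc]
            exact ⟨(hmem n hn).1, Nat.minFac_dvd _⟩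
        have h1 : ((G3L X (39 / 400) m a 0 H).card : ℝ) ≤ ∑ q ∈ B (m, a, H), ((H : ℝ) / q + 1) := by
          calc ((G3L X (39 / 400) m a 0 H).card : ℝ) ≤
                ∑ q ∈ B (m, a, H), ((((Ioc 0 (0 + H)).filter (fun j => q ∣ m * j + a)).card : ℕ) : ℝ) := by
                exact_mod_cast (card_le_card hcov).trans card_biUnion_le
            _ ≤ _ := by
                apply sum_le_sum
                intro q hq
                have := (abs_le.1 (card_lin m a 0 H q (hBΩ q hq).1.pos (hcopq q hq))).2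
                linarith
        have h2 : ∑ q ∈ B (m, a, H), ((H : ℝ) / q + 1) ≤ ∑ q ∈ B (m, a, H), 5 * H * (1 / (q : ℝ)) := by
          apply sum_le_sum
          intro q hq
          obtain ⟨q1, q2, q3⟩ := hBΩ q hq
          have hq0 : (0 : ℝ) < q := by exact_mod_cast q1.pos
          rw [mul_one_div, div_add_one hq0.ne']
          apply div_le_div_of_nonneg_right _ hq0.le
          linarith
        rw [← mul_sum] at h2
        have hlX : Real.log X ≤ 3 * Real.log Y := by
          have h1 := Real.log_le_log hX0 hXX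
          rw [Real.log_mul (by positivity) (by norm_num), Real.log_pow] at h1
          have := Real.log_two_lt_d9
          push_cast at h1
          linarith
        have hlX0 : 0 < Real.log X := lt_of_lt_of_le hlY0 (Real.log_le_log hY0 hXY)
        have hH0 : (0 : ℝ) < H := lt_of_lt_of_le (by positivity) hH25
        have h3 : δ * (H / Real.log X) ≤ 5 * H * ∑ q ∈ B (m, a, H), (1 : ℝ) / q := hG.trans (h1.trans h2)
        have h4 : δ / (3 * Real.log Y) ≤ δ / Real.log X := div_le_div_of_nonneg_left hδ.le hlX0 hlX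
        have h5 : δ / Real.log X ≤ 5 * ∑ q ∈ B (m, a, H), (1 : ℝ) / q := by
          have h6 : δ * (H / Real.log X) = H * (δ / Real.log X) := by ring
          rw [h6] at h3
          have h7 : 5 * H * ∑ q ∈ B (m, a, H), (1 : ℝ) / q = H * (5 * ∑ q ∈ B (m, a, H), (1 : ℝ) / q) := by ring
          rw [h7] at h3
          exact le_of_mul_le_mul_left h3 hH0
        have h6 : δ / (36 * M * Real.log Y) * M = δ / (3 * Real.log Y) / 12 := by
          field_simp
          norm_num
        rw [h6]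
        have h7 : 0 ≤ ∑ q ∈ B (m, a, H), (1 : ℝ) / q := sum_nonneg fun q _ => by positivity
        linarith [h4.trans h5]
    obtain ⟨T, hT1, hT2, hT3⟩ := hit2 Ω (fun q => (1 : ℝ) / q) (fun q _ => by positivity) M
      (δ / (36 * M * Real.log Y)) hM (by
        rw [hΩ]
        exact hmert (Y ^ 2) (hZ2.trans (Nat.le_self_pow (by norm_num) Y))) (by positivity) B I ((Y : ℝ) ^ 6) (by
        calc (2 : ℝ) ≤ 2 ^ 100 := by norm_num
          _ ≤ Y := hYr
          _ = (Y : ℝ) ^ 1 := (pow_one _).symm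
          _ ≤ _ := pow_le_pow_right₀ hY1 (by norm_num)) (by
        have h1 : I.card ≤ Y ^ 6 := by
          rw [hI]
          unfold NPLs
          refine (card_filter_le _ _).trans ?_
          rw [card_product, card_product, card_range]
          apply le_of_eq
          ring
        exact_mod_cast h1) hkey
    refine ⟨T, ?_, ?_, ?_⟩
    · intro q hq
      have h1 := hT1 hq
      rw [hΩ] at h1
      unfold pr at h1
      rw [mem_filter, mem_Icc] at h1
      refine ⟨h1.2.1, ?_⟩
      have h2 := h1.2.2.1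
      have hq0 : (0 : ℝ) < q := by exact_mod_cast h1.2.1.pos
      unfold tt at h2
      have hlY2 : Real.log ((Y ^ 2 : ℕ) : ℝ) = 2 * Real.log Y := by
        push_cast
        rw [Real.log_pow]
        norm_num
      rw [hlY2, le_div_iff₀ (by positivity)] at h2
      have h3 : (Y : ℝ) ≤ (q : ℝ) ^ 12 := by
        rw [← Real.log_le_log_iff hY0 (by positivity), Real.log_pow]
        push_cast
        linarith
      have h4 : Y ≤ q ^ 12 := by exact_mod_cast h3
      exact lt_of_le_of_lt h4 (Nat.pow_lt_pow_right h1.2.1.one_lt (by norm_num))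
    · refine hT2.trans ?_
      have e1 : 1 / (δ / (36 * M * Real.log Y)) = 36 * M / δ * Real.log Y := by
        field_simp
      rw [e1, Real.log_pow]
      push_cast
      have e2 : 36 * M / δ * Real.log Y + 2 ≤ (36 * M / δ + 2) * Real.log Y := by
        have : 2 ≤ 2 * Real.log Y := by linarith
        linarith
      calc (36 * M / δ * Real.log Y + 2) * (6 * Real.log Y) ≤ ((36 * M / δ + 2) * Real.log Y) * (6 * Real.log Y) :=
            mul_le_mul_of_nonneg_right e2 (by positivity)
        _ = 6 * (36 * M / δ + 2) * Real.log Y ^ 2 := by ring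
        _ ≤ 20 * (36 * M / δ + 2) * Real.log Y ^ 2 := by
            apply mul_le_mul_of_nonneg_right _ (by positivity)
            have : 0 < 36 * M / δ + 2 := by positivity
            linarith
    · intro _ m a H h1 h2 hm ham hmH ha0 haa
      by_cases hpr : ∃ n ∈ G3L (m * H + a) (39 / 400) m a 0 H, (m * n + a).Prime
      · obtain ⟨n, hn, hnp⟩ := hpr
        exact ⟨n, hn, Or.inl hnp⟩
      · push Not at hpr
        obtain ⟨q, hq1, hq2⟩ := hT3 (m, a, H) (by
          rw [hI]
          unfold NPLs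
          rw [mem_filter, mem_product, mem_product, mem_range, mem_range, mem_range]
          unfold NPL
          have hH1 : 1 ≤ H := by omega
          have hmH2 : m ≤ m * H := Nat.le_mul_of_pos_right m hH1
          have hmH3 : H ≤ m * H := Nat.le_mul_of_pos_left H hm
          exact ⟨⟨by show m < Y ^ 2; omega, by show a < Y ^ 2; omega, by show H < Y ^ 2; omega⟩, h1, h2, hm, ham, hmH, ha0, haa, hpr⟩)
        rw [hB] at hq2
        simp only [mem_image] at hq2
        obtain ⟨n, hn, hnq⟩ := hq2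
        unfold G3L at hn
        rw [mem_filter, mem_Ioc] at hn
        obtain ⟨⟨a1, a2⟩, a3, a4⟩ := hn
        have hn' : n ∈ G3L (m * H + a) (39 / 400) m a 0 H := by
          unfold G3L
          rw [mem_filter, mem_Ioc]
          exact ⟨⟨a1, a2⟩, a3, a4⟩
        have hn2 : 2 ≤ m * n + a := by
          have : 1 ≤ m * n := Nat.mul_pos hm a1
          omega
        have hqp : q.Prime := by
          rw [← hnq]
          exact Nat.minFac_prime (by omega)
        have hqn : q ∣ m * n + a := by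
          rw [← hnq]
          exact Nat.minFac_dvd _
        have hq2n : q ^ 2 ≤ m * n + a := by
          rw [← hnq]
          exact Nat.minFac_sq_le_self (by omega) (hpr n hn')
        obtain ⟨l, hl⟩ := hqn
        have hql : q ≤ l := by
          rw [hl, pow_two] at hq2n
          exact Nat.le_of_mul_le_mul_left hq2n hqp.pos
        have hl0 : l ≠ 0 := by
          have := hqp.pos
          omega
        refine ⟨n, hn', Or.inr ⟨q, hq1, l, hl, hql, ?_⟩⟩
        have h1 := (Nat.perm_primeFactorsList_mul hqp.ne_zero hl0).length_eq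
        rw [← hl, List.length_append, Nat.primeFactorsList_prime hqp, List.length_singleton] at h1
        omega
  choose T hT1 hT2 hT3 using hstep
  refine ⟨2 * C' * 13 ^ 2, by positivity, {q | ∃ i, q ∈ T i}, ?_, ?_, Z₀ ^ 2, ?_⟩
  · rintro q ⟨i, hi⟩
    exact (hT1 i q hi).1
  · intro x hx
    refine ⟨(Icc 1 x).filter (fun q => ∃ i, q ∈ T i), ?_, ?_⟩
    · rintro q ⟨i, hi⟩ hqx
      rw [mem_filter, mem_Icc]
      exact ⟨⟨(hT1 i q hi).1.one_le, hqx⟩, i, hi⟩
    · exact_mod_cast thin_union2 T C' hC'0 13 (by norm_num) hT1 hT2 x hx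
  · intro m a H hX hm ham hmH ha0 haa
    have hZ2 : 2 ≤ Z₀ := by
      have : 2 ^ 100 ≤ Z₀ := by rw [hZ₀]; exact le_max_right _ _
      omega
    have hA2 : 2 ≤ m * H + a := by nlinarith
    obtain ⟨i, hi1, hi2⟩ := tower hA2
    have hi3 : Z₀ ≤ 2 ^ 2 ^ i := by
      by_contra hcon
      push Not at hcon
      have : (2 ^ 2 ^ i) ^ 2 ≤ Z₀ ^ 2 := Nat.pow_le_pow_left hcon.le 2
      omega
    obtain ⟨n, hn, h⟩ := hT3 i hi3 m a H hi1 hi2 hm ham hmH ha0 haa
    refine ⟨n, hn, ?_⟩
    rcases h with h | ⟨q, hq, l, hl⟩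
    · exact Or.inl h
    · exact Or.inr ⟨q, ⟨i, hq⟩, l, hl⟩

end Pool.Agent.Q253.P3
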